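import Pool.Agent.Helper67.BT.Basic

open Finset MeasureTheory

namespace Pool.Agent.Helper67.BT

variable {n k : ℕ} (c : Cfg n k)

/-! ### integrability -/

theorem gauss_int {b : ℝ} (hb : 0 < b) : Integrable (fun x : E k => Real.exp (-b * ‖x‖ ^ 2)) := by
  have h := GaussianFourier.integrable_cexp_neg_mul_sq_norm_add (V := E k) (b := (b : ℂ))
    (by simpa using hb) 0 0
  have h2 := h.norm
  refine h2.congr (Filter.Eventually.of_forall fun x => ?_)
  simp only [Complex.norm_exp]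
  congr 1
  simp
  left
  norm_cast

theorem pow_exp_le (N : ℕ) {b : ℝ} (hb : 0 < b) (r : ℝ) (hr : 0 ≤ r) :
    (1 + r) ^ N * Real.exp (-b * r ^ 2) ≤
      (N.factorial * Real.exp (1 + 1 / (2 * b))) * Real.exp (-(b / 2) * r ^ 2) := by
  have h1 : (1 + r) ^ N ≤ N.factorial * Real.exp (1 + r) := by
    have h2 : (1 + r) ^ N / N.factorial ≤ Real.exp (1 + r) :=
      Real.pow_div_factorial_le_exp (1 + r) (by linarith) N
    rw [div_le_iff₀ (by positivity)] at h2
    linarith
  have h2 : r ≤ 1 / (2 * b) + b * r ^ 2 / 2 := by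
    have h3 : 0 ≤ (1 - b * r) ^ 2 / (2 * b) := by positivity
    have h4 : (1 - b * r) ^ 2 / (2 * b) = 1 / (2 * b) - r + b * r ^ 2 / 2 := by
      field_simp
      ring
    linarith
  calc (1 + r) ^ N * Real.exp (-b * r ^ 2)
      ≤ (N.factorial * Real.exp (1 + r)) * Real.exp (-b * r ^ 2) :=
        mul_le_mul_of_nonneg_right h1 (Real.exp_pos _).le
    _ = N.factorial * Real.exp (1 + r + -b * r ^ 2) := by
        rw [Real.exp_add (1 + r) (-b * r ^ 2)]; ring
    _ ≤ N.factorial * Real.exp (1 + 1 / (2 * b) + -(b / 2) * r ^ 2) := by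
        refine mul_le_mul_of_nonneg_left (Real.exp_le_exp.2 ?_) (by positivity)
        linarith
    _ = _ := by rw [Real.exp_add (1 + 1 / (2 * b)) (-(b / 2) * r ^ 2)]; ring

theorem pow_gauss_int (N : ℕ) {b : ℝ} (hb : 0 < b) :
    Integrable (fun x : E k => (1 + ‖x‖) ^ N * Real.exp (-b * ‖x‖ ^ 2)) := by
  refine Integrable.mono' ((gauss_int (k := k) (b := b / 2) (by linarith)).const_mul
    (N.factorial * Real.exp (1 + 1 / (2 * b)))) ?_ (Filter.Eventually.of_forall fun x => ?_)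
  · exact Continuous.aestronglyMeasurable (by fun_prop)
  · rw [Real.norm_of_nonneg (by positivity)]
    exact pow_exp_le N hb _ (norm_nonneg _)

theorem exp_V_le {p : ℝ} (hp : 2 ≤ p) (hp3 : p ≤ 3) (x : E k) :
    Real.exp (-(V c p x)) ≤ Real.exp 1 * Real.exp (-(1 / ((k : ℝ) + 1)) * ‖x‖ ^ 2) := by
  rw [← Real.exp_add]
  apply Real.exp_le_exp.2
  have h := V_low c hp hp3 x
  have h2 : (‖x‖ ^ 2 - 1) / ((k : ℝ) + 1) = 1 / ((k : ℝ) + 1) * ‖x‖ ^ 2 - 1 / ((k : ℝ) + 1) := by
    ring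
  have h3 : 1 / ((k : ℝ) + 1) ≤ 1 := by
    rw [div_le_one (by positivity)]
    have : (0 : ℝ) ≤ k := by positivity
    linarith
  linarith

theorem int_pow {p : ℝ} (hp : 2 ≤ p) (hp3 : p ≤ 3) (N : ℕ) :
    Integrable (fun x : E k => (1 + ‖x‖) ^ N * Real.exp (-(V c p x))) := by
  refine Integrable.mono' ((pow_gauss_int (k := k) N (b := 1 / ((k : ℝ) + 1))
    (by positivity)).const_mul (Real.exp 1)) ?_ (Filter.Eventually.of_forall fun x => ?_)
  · have := V_cont c (p := p) (by linarith)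
    exact Continuous.aestronglyMeasurable (by fun_prop)
  · rw [Real.norm_of_nonneg (by positivity)]
    calc (1 + ‖x‖) ^ N * Real.exp (-(V c p x)) ≤ (1 + ‖x‖) ^ N *
        (Real.exp 1 * Real.exp (-(1 / ((k : ℝ) + 1)) * ‖x‖ ^ 2)) :=
          mul_le_mul_of_nonneg_left (exp_V_le c hp hp3 x) (by positivity)
      _ = _ := by ring

theorem int_PG {p : ℝ} (hp : 2 ≤ p) (hp3 : p ≤ 3) {F : E k → ℝ} (hF : PG F) :
    Integrable (fun x : E k => F x * Real.exp (-(V c p x))) := by
  obtain ⟨hc, C, N, hC, h⟩ := hF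
  refine Integrable.mono' ((int_pow c hp hp3 N).const_mul C) ?_
    (Filter.Eventually.of_forall fun x => ?_)
  · have := V_cont c (p := p) (by linarith)
    exact Continuous.aestronglyMeasurable (by fun_prop)
  · rw [norm_mul, Real.norm_eq_abs, Real.norm_of_nonneg (Real.exp_pos _).le, ← mul_assoc]
    exact mul_le_mul_of_nonneg_right (h x) (Real.exp_pos _).le

/-! ### functions of polynomial growth -/

theorem PG_const (a : ℝ) : PG (fun _ : E k => a) :=
  ⟨continuous_const, |a|, 0, abs_nonneg _, fun x => by simp⟩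

theorem PG_mono_exp {F : E k → ℝ} {C : ℝ} {N M : ℕ} (hC : 0 ≤ C) (hNM : N ≤ M)
    (h : ∀ x, |F x| ≤ C * (1 + ‖x‖) ^ N) (x : E k) : |F x| ≤ C * (1 + ‖x‖) ^ M :=
  (h x).trans (mul_le_mul_of_nonneg_left (pow_le_pow_right₀ (by linarith [norm_nonneg x]) hNM) hC)

theorem PG_add {F G : E k → ℝ} (hF : PG F) (hG : PG G) : PG (fun x => F x + G x) := by
  obtain ⟨h1, C, N, hC, h2⟩ := hF
  obtain ⟨h3, D, M, hD, h4⟩ := hG
  refine ⟨h1.add h3, C + D, max N M, by positivity, fun x => ?_⟩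
  have e1 := PG_mono_exp hC (le_max_left N M) h2 x
  have e2 := PG_mono_exp hD (le_max_right N M) h4 x
  refine (abs_add_le _ _).trans ?_
  rw [add_mul]
  linarith

theorem PG_neg {F : E k → ℝ} (hF : PG F) : PG (fun x => -F x) := by
  obtain ⟨h1, C, N, hC, h2⟩ := hF
  exact ⟨h1.neg, C, N, hC, fun x => by rw [abs_neg]; exact h2 x⟩

theorem PG_sub {F G : E k → ℝ} (hF : PG F) (hG : PG G) : PG (fun x => F x - G x) := by
  simpa only [sub_eq_add_neg] using PG_add hF (PG_neg hG)

theorem PG_mul {F G : E k → ℝ} (hF : PG F) (hG : PG G) : PG (fun x => F x * G x) := by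
  obtain ⟨h1, C, N, hC, h2⟩ := hF
  obtain ⟨h3, D, M, hD, h4⟩ := hG
  refine ⟨h1.mul h3, C * D, N + M, by positivity, fun x => ?_⟩
  rw [abs_mul, pow_add]
  calc |F x| * |G x| ≤ (C * (1 + ‖x‖) ^ N) * (D * (1 + ‖x‖) ^ M) :=
        mul_le_mul (h2 x) (h4 x) (abs_nonneg _) (by positivity)
    _ = _ := by ring

theorem PG_const_mul (a : ℝ) {F : E k → ℝ} (hF : PG F) : PG (fun x => a * F x) :=
  PG_mul (PG_const a) hF

theorem PG_div_const {F : E k → ℝ} (hF : PG F) (a : ℝ) : PG (fun x => F x / a) := by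
  simpa only [div_eq_mul_inv] using PG_mul hF (PG_const a⁻¹)

theorem PG_pow {F : E k → ℝ} (hF : PG F) (m : ℕ) : PG (fun x => F x ^ m) := by
  induction m with
  | zero => simpa using PG_const (k := k) 1
  | succ m ih => simpa only [pow_succ] using PG_mul ih hF

theorem PG_abs {F : E k → ℝ} (hF : PG F) : PG (fun x => |F x|) := by
  obtain ⟨h1, C, N, hC, h2⟩ := hF
  exact ⟨h1.abs, C, N, hC, fun x => by rw [abs_abs]; exact h2 x⟩

theorem PG_sum {ι : Type} (s : Finset ι) {F : ι → E k → ℝ} (hF : ∀ i ∈ s, PG (F i)) :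
    PG (fun x => ∑ i ∈ s, F i x) := by
  classical
  induction s using Finset.induction_on with
  | empty => simpa using PG_const (k := k) 0
  | insert a s ha ih =>
    simp only [Finset.sum_insert ha]
    exact PG_add (hF a (Finset.mem_insert_self a s))
      (ih fun i hi => hF i (Finset.mem_insert_of_mem hi))

theorem PG_inner (a : E k) : PG (fun x => inner ℝ a x) := by
  refine ⟨by fun_prop, ‖a‖, 1, norm_nonneg _, fun x => ?_⟩
  have := abs_real_inner_le_norm a x
  have h := norm_nonneg a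
  have h2 := norm_nonneg x
  nlinarith

theorem PG_inner' (a : E k) : PG (fun x => inner ℝ x a) := by
  simpa only [real_inner_comm] using PG_inner a

theorem PG_z (i : Fin n) : PG (c.z i) := PG_inner _

theorem PG_norm : PG (fun x : E k => ‖x‖) :=
  ⟨continuous_norm, 1, 1, zero_le_one, fun x => by
    rw [abs_of_nonneg (norm_nonneg x)]; linarith [norm_nonneg x]⟩

theorem PG_coord (l : Fin k) : PG (fun x : E k => x l) := by
  refine ⟨by fun_prop, 1, 1, zero_le_one, fun x => ?_⟩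
  have h1 : |x l| ≤ ‖x‖ := by simpa using PiLp.norm_apply_le x l
  linarith

theorem PG_rpow {F : E k → ℝ} (hF : PG F) {q : ℝ} (hq : 0 ≤ q) : PG (fun x => |F x| ^ q) := by
  obtain ⟨h1, C, N, hC, h2⟩ := hF
  obtain ⟨m, hm⟩ := exists_nat_ge q
  refine ⟨h1.abs.rpow_const fun _ => Or.inr hq, (1 + C) ^ m, N * m, by positivity, fun x => ?_⟩
  rw [abs_of_nonneg (Real.rpow_nonneg (abs_nonneg _) _)]
  have h3 : (1 : ℝ) ≤ (1 + ‖x‖) ^ N := one_le_pow₀ (by linarith [norm_nonneg x])
  have h4 : |F x| ≤ (1 + C) * (1 + ‖x‖) ^ N := (h2 x).trans (by nlinarith)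
  have h5 : 1 ≤ (1 + C) * (1 + ‖x‖) ^ N := by nlinarith
  calc |F x| ^ q ≤ ((1 + C) * (1 + ‖x‖) ^ N) ^ q := Real.rpow_le_rpow (abs_nonneg _) h4 hq
    _ ≤ ((1 + C) * (1 + ‖x‖) ^ N) ^ (m : ℝ) := Real.rpow_le_rpow_of_exponent_le h5 hm
    _ = _ := by rw [Real.rpow_natCast, mul_pow, ← pow_mul]

theorem PG_ps {F : E k → ℝ} (hF : PG F) {p : ℝ} (hp : 2 ≤ p) : PG (fun x => ps p (F x)) :=
  PG_mul (PG_rpow hF (by linarith)) hF

theorem PG_om {F : E k → ℝ} (hF : PG F) {p : ℝ} (hp : 2 ≤ p) : PG (fun x => om p (F x)) :=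
  PG_sub (PG_rpow hF (by linarith)) (PG_const 1)

theorem PG_Om {F : E k → ℝ} (hF : PG F) {p : ℝ} (hp : 2 ≤ p) : PG (fun x => Om p (F x)) :=
  PG_sub (PG_div_const (PG_ps hF hp) _) hF

theorem PG_O2 {F : E k → ℝ} (hF : PG F) {p : ℝ} (hp : 2 ≤ p) : PG (fun x => O2 p (F x)) :=
  PG_sub (PG_div_const (PG_rpow hF (by linarith)) _) (PG_div_const (PG_pow hF 2) _)

theorem PG_dV {p : ℝ} (hp : 2 ≤ p) (v : E k) : PG (dV c p v) :=
  PG_const_mul _ (PG_sum _ fun i _ => PG_mul (PG_const_mul _ (PG_ps (PG_z c i) hp)) (PG_const _))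

theorem PG_ddV {p : ℝ} (hp : 2 ≤ p) (v w : E k) : PG (ddV c p v w) :=
  PG_const_mul _ (PG_sum _ fun i _ => PG_mul (PG_mul (PG_const_mul _
    (PG_rpow (PG_z c i) (by linarith))) (PG_const _)) (PG_const _))

/-! ### averages -/

theorem Z_pos {p : ℝ} (hp : 2 ≤ p) (hp3 : p ≤ 3) : 0 < II c p fun _ => 1 := by
  unfold II
  have h := int_PG c hp hp3 (PG_const (k := k) 1)
  simp only [one_mul] at h ⊢
  exact integral_exp_pos h

theorem av_one {p : ℝ} (hp : 2 ≤ p) (hp3 : p ≤ 3) : av c p (fun _ => 1) = 1 :=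
  div_self (Z_pos c hp hp3).ne'

theorem av_add {p : ℝ} (hp : 2 ≤ p) (hp3 : p ≤ 3) {F G : E k → ℝ} (hF : PG F) (hG : PG G) :
    av c p (fun x => F x + G x) = av c p F + av c p G := by
  unfold av
  rw [← add_div]
  congr 1
  unfold II
  rw [← integral_add (int_PG c hp hp3 hF) (int_PG c hp hp3 hG)]
  congr 1
  ext x
  ring

theorem av_const_mul (p a : ℝ) (F : E k → ℝ) : av c p (fun x => a * F x) = a * av c p F := by
  unfold av II
  rw [← mul_div_assoc, ← integral_const_mul]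
  congr 2
  ext x
  ring

theorem av_mul_const (p a : ℝ) (F : E k → ℝ) : av c p (fun x => F x * a) = av c p F * a := by
  simp only [mul_comm _ a, av_const_mul]

theorem av_neg (p : ℝ) (F : E k → ℝ) : av c p (fun x => -F x) = -av c p F := by
  have := av_const_mul c p (-1) F
  simpa using this

theorem av_sub {p : ℝ} (hp : 2 ≤ p) (hp3 : p ≤ 3) {F G : E k → ℝ} (hF : PG F) (hG : PG G) :
    av c p (fun x => F x - G x) = av c p F - av c p G := by
  have := av_add c hp hp3 hF (PG_neg hG)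
  simpa only [sub_eq_add_neg, av_neg] using this

theorem av_const {p : ℝ} (hp : 2 ≤ p) (hp3 : p ≤ 3) (a : ℝ) : av c p (fun _ => a) = a := by
  have := av_const_mul c p a (fun _ => 1)
  simp only [mul_one, av_one c hp hp3] at this
  exact this

theorem av_sum {p : ℝ} (hp : 2 ≤ p) (hp3 : p ≤ 3) {ι : Type} (s : Finset ι) {F : ι → E k → ℝ}
    (hF : ∀ i ∈ s, PG (F i)) :
    av c p (fun x => ∑ i ∈ s, F i x) = ∑ i ∈ s, av c p (F i) := by
  classical
  induction s using Finset.induction_on with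
  | empty => simp [av_const c hp hp3]
  | insert a s ha ih =>
    simp only [Finset.sum_insert ha]
    rw [av_add c hp hp3 (hF a (Finset.mem_insert_self a s))
      (PG_sum s fun i hi => hF i (Finset.mem_insert_of_mem hi)),
      ih fun i hi => hF i (Finset.mem_insert_of_mem hi)]

theorem av_mono {p : ℝ} (hp : 2 ≤ p) (hp3 : p ≤ 3) {F G : E k → ℝ} (hF : PG F) (hG : PG G)
    (h : ∀ x, F x ≤ G x) : av c p F ≤ av c p G := by
  unfold av
  refine div_le_div_of_nonneg_right ?_ (Z_pos c hp hp3).le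
  exact integral_mono (int_PG c hp hp3 hF) (int_PG c hp hp3 hG) fun x =>
    mul_le_mul_of_nonneg_right (h x) (Real.exp_pos _).le

theorem av_nonneg {p : ℝ} (hp : 2 ≤ p) (hp3 : p ≤ 3) {F : E k → ℝ} (h : ∀ x, 0 ≤ F x) :
    0 ≤ av c p F :=
  div_nonneg (integral_nonneg fun x => mul_nonneg (h x) (Real.exp_pos _).le)
    (Z_pos c hp hp3).le

theorem av_abs_le {p : ℝ} (hp : 2 ≤ p) (hp3 : p ≤ 3) {F G : E k → ℝ} (hF : PG F) (hG : PG G)
    (h : ∀ x, |F x| ≤ G x) : |av c p F| ≤ av c p G := by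
  rw [abs_le]
  constructor
  · rw [← av_neg]
    exact av_mono c hp hp3 (PG_neg hG) hF fun x => (neg_le_of_abs_le (h x))
  · exact av_mono c hp hp3 hF hG fun x => (le_abs_self _).trans (h x)

theorem av_CS {p : ℝ} (hp : 2 ≤ p) (hp3 : p ≤ 3) {F G : E k → ℝ} (hF : PG F) (hG : PG G) :
    (av c p fun x => F x * G x) ^ 2 ≤ (av c p fun x => F x ^ 2) * av c p fun x => G x ^ 2 := by
  set A := av c p fun x => F x ^ 2
  set B := av c p fun x => F x * G x
  set D := av c p fun x => G x ^ 2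
  have h : ∀ t : ℝ, 0 ≤ A * (t * t) + (2 * B) * t + D := by
    intro t
    have h1 : 0 ≤ av c p fun x => (t * F x + G x) ^ 2 := av_nonneg c hp hp3 fun x => sq_nonneg _
    have h2 : (fun x => (t * F x + G x) ^ 2) =
        fun x => (t * t) * F x ^ 2 + ((2 * t) * (F x * G x) + G x ^ 2) := by
      ext x
      ring
    rw [h2, av_add c hp hp3 (PG_const_mul _ (PG_pow hF 2))
      (PG_add (PG_const_mul _ (PG_mul hF hG)) (PG_pow hG 2)),
      av_add c hp hp3 (PG_const_mul _ (PG_mul hF hG)) (PG_pow hG 2), av_const_mul,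
      av_const_mul] at h1
    calc 0 ≤ _ := h1
      _ = _ := by ring
  have := discrim_le_zero h
  rw [discrim] at this
  nlinarith

/-- the moments are bounded uniformly in the configuration -/
theorem exists_K (k N : ℕ) : ∃ K : ℝ, 1 ≤ K ∧ ∀ (n : ℕ) (c : Cfg n k) (p : ℝ), 2 ≤ p → p ≤ 3 →
    av c p (fun x => (1 + ‖x‖) ^ N) ≤ K := by
  set A : ℝ := ∫ x : E k, (1 + ‖x‖) ^ N * Real.exp (-(1 / ((k : ℝ) + 1)) * ‖x‖ ^ 2) with hA
  set B : ℝ := Real.exp (-1) * (volume (Metric.closedBall (0 : E k) 1)).toReal with hB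
  have hB0 : 0 < B := by
    refine mul_pos (Real.exp_pos _) (ENNReal.toReal_pos ?_ ?_)
    · exact (Metric.measure_closedBall_pos volume _ one_pos).ne'
    · exact measure_closedBall_lt_top.ne
  refine ⟨max 1 (Real.exp 1 * A / B), le_max_left _ _, fun n c p hp hp3 => ?_⟩
  refine le_trans ?_ (le_max_right _ _)
  have h1 : II c p (fun x => (1 + ‖x‖) ^ N) ≤ Real.exp 1 * A := by
    unfold II
    rw [hA, ← integral_const_mul]
    refine integral_mono (int_pow c hp hp3 N) ((pow_gauss_int (k := k) N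
      (by positivity)).const_mul _) fun x => ?_
    calc (1 + ‖x‖) ^ N * Real.exp (-(V c p x)) ≤ (1 + ‖x‖) ^ N *
        (Real.exp 1 * Real.exp (-(1 / ((k : ℝ) + 1)) * ‖x‖ ^ 2)) :=
          mul_le_mul_of_nonneg_left (exp_V_le c hp hp3 x) (by positivity)
      _ = _ := by ring
  have h2 : B ≤ II c p fun _ => 1 := by
    have h3 : B = ∫ x in Metric.closedBall (0 : E k) 1, Real.exp (-1) := by
      rw [setIntegral_const, hB]
      simp [Measure.real, mul_comm]
    have h4 := int_PG c hp hp3 (PG_const (k := k) 1)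
    rw [h3]
    unfold II
    refine le_trans ?_ (setIntegral_le_integral (s := Metric.closedBall (0 : E k) 1) h4
      (Filter.Eventually.of_forall fun x => by positivity))
    refine setIntegral_mono_on ?_ h4.integrableOn measurableSet_closedBall fun x hx => ?_
    · exact integrableOn_const measure_closedBall_lt_top.ne
    · rw [one_mul]
      apply Real.exp_le_exp.2
      have h5 : ‖x‖ ≤ 1 := by simpa using hx
      have h6 := V_up c hp x
      have h7 : ‖x‖ ^ p ≤ 1 := Real.rpow_le_one (norm_nonneg _) h5 (by linarith)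
      linarith
  unfold av
  exact div_le_div₀ (by positivity) h1 hB0 h2

/-- integration by parts -/
theorem ibp {p : ℝ} (hp : 2 < p) (hp3 : p ≤ 3) {F F' : E k → ℝ} (v : E k) (hF : PG F)
    (hF' : PG F') (h : ∀ x, HasLineDerivAt ℝ F (F' x) x v)
    (hV : ∀ x, HasLineDerivAt ℝ (V c p) (dV c p v x) x v) :
    av c p (fun x => F x * dV c p v x) = av c p F' := by
  have hp' : 2 ≤ p := hp.le
  have hG : ∀ x, HasLineDerivAt ℝ (fun x => Real.exp (-(V c p x)))
      (-(dV c p v x) * Real.exp (-(V c p x))) x v := by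
    intro x
    have h1 : HasDerivAt (fun t : ℝ => V c p (x + t • v)) (dV c p v x) 0 := hV x
    have h2 := h1.neg.exp
    have h3 : HasDerivAt (fun t : ℝ => Real.exp (-(V c p (x + t • v))))
        (Real.exp (-(V c p (x + (0 : ℝ) • v))) * -(dV c p v x)) 0 := h2
    rw [zero_smul, add_zero, mul_comm] at h3
    exact h3
  have h1 := integral_bilinear_hasLineDerivAt_right_eq_neg_left_of_integrable
    (μ := (volume : Measure (E k))) (f := F) (f' := F') (g := fun x => Real.exp (-(V c p x)))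
    (g' := fun x => -(dV c p v x) * Real.exp (-(V c p x))) (v := v)
    (B := ContinuousLinearMap.mul ℝ ℝ) ?_ ?_ ?_ (fun x _ => h x) (fun x _ => hG x)
  · simp only [ContinuousLinearMap.mul_apply'] at h1
    unfold av II
    congr 1
    rw [← neg_inj, ← h1, ← integral_neg]
    congr 1
    ext x
    ring
  · exact int_PG c hp' hp3 hF'
  · have := int_PG c hp' hp3 (PG_mul hF (PG_neg (PG_dV c hp' v)))
    refine this.congr (Filter.Eventually.of_forall fun x => ?_)
    simp only [ContinuousLinearMap.mul_apply']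
    ring
  · exact int_PG c hp' hp3 hF

end Pool.Agent.Helper67.BT
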