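import Pool.Agent.Helper67.BT.Defs

open Finset MeasureTheory

namespace Pool.Agent.Helper67.BT

variable {n k : ℕ} (c : Cfg n k)

/-! ### elementary facts on configurations -/

theorem z_add (i : Fin n) (x y : E k) : c.z i (x + y) = c.z i x + c.z i y := inner_add_right _ _ _

theorem z_smul (i : Fin n) (t : ℝ) (x : E k) : c.z i (t • x) = t * c.z i x :=
  inner_smul_right _ _ _

theorem z_cont (i : Fin n) : Continuous (c.z i) := by unfold Cfg.z; fun_prop

theorem z_le (i : Fin n) (x : E k) : |c.z i x| ≤ ‖x‖ := by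
  have := abs_real_inner_le_norm (c.e i) x
  rwa [c.e1 i, one_mul] at this

theorem sum_s : ∑ i, c.s i = k := by
  have h1 : ∀ i, c.s i = ∑ l : Fin k, c.s i * inner ℝ (c.e i) (EuclideanSpace.single l (1 : ℝ)) *
      inner ℝ (c.e i) (EuclideanSpace.single l (1 : ℝ)) := by
    intro i
    have h2 : ‖c.e i‖ ^ 2 = ∑ l : Fin k, (c.e i l) ^ 2 := by
      rw [EuclideanSpace.real_norm_sq_eq]
    rw [c.e1 i] at h2
    have h3 : ∀ l, c.s i * inner ℝ (c.e i) (EuclideanSpace.single l (1 : ℝ)) *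
      inner ℝ (c.e i) (EuclideanSpace.single l (1 : ℝ)) = c.s i * (c.e i l) ^ 2 := by
      intro l
      simp only [EuclideanSpace.inner_single_right, one_mul, conj_trivial]
      ring
    rw [Finset.sum_congr rfl fun l _ => h3 l, ← Finset.mul_sum, ← h2]
    ring
  rw [Finset.sum_congr rfl fun i _ => h1 i, Finset.sum_comm]
  have h2 : ∀ l : Fin k, ∑ i, c.s i * inner ℝ (c.e i) (EuclideanSpace.single l (1 : ℝ)) *
      inner ℝ (c.e i) (EuclideanSpace.single l (1 : ℝ)) = 1 := by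
    intro l
    rw [c.iso]
    simp
  rw [Finset.sum_congr rfl fun l _ => h2 l]
  simp

theorem iso_sq (x : E k) : ∑ i, c.s i * (c.z i x) ^ 2 = ‖x‖ ^ 2 := by
  have := c.iso x x
  rw [real_inner_self_eq_norm_sq] at this
  rw [← this]
  refine Finset.sum_congr rfl fun i _ => ?_
  unfold Cfg.z
  ring

/-- the sum of a bounded quantity -/
theorem sum_le_of (f : Fin n → ℝ) (B : ℝ) (h : ∀ i, f i ≤ B) : ∑ i, c.s i * f i ≤ k * B := by
  rw [← sum_s c, Finset.sum_mul]
  exact Finset.sum_le_sum fun i _ => mul_le_mul_of_nonneg_left (h i) (c.s0 i)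

theorem abs_sum_le_of (f : Fin n → ℝ) (B : ℝ) (h : ∀ i, |f i| ≤ B) :
    |∑ i, c.s i * f i| ≤ k * B := by
  refine (Finset.abs_sum_le_sum_abs _ _).trans ?_
  have : ∀ i, |c.s i * f i| = c.s i * |f i| := fun i => by rw [abs_mul, abs_of_nonneg (c.s0 i)]
  rw [Finset.sum_congr rfl fun i _ => this i]
  exact sum_le_of c _ B h

theorem V_nonneg (p : ℝ) (x : E k) : 0 ≤ V c p x :=
  Finset.sum_nonneg fun i _ => mul_nonneg (c.s0 i) (Real.rpow_nonneg (abs_nonneg _) _)

theorem V_cont {p : ℝ} (hp : 0 ≤ p) : Continuous (V c p) := by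
  unfold V
  refine continuous_finsetSum _ fun i _ => continuous_const.mul ?_
  exact ((z_cont c i).abs).rpow_const fun _ => Or.inr hp

theorem V_neg (p : ℝ) (x : E k) : V c p (-x) = V c p x := by
  unfold V Cfg.z
  simp only [inner_neg_right, abs_neg]

theorem V_up {p : ℝ} (hp : 2 ≤ p) (x : E k) : V c p x ≤ ‖x‖ ^ p := by
  have h1 : ∀ i, c.s i * |c.z i x| ^ p ≤ c.s i * (c.z i x) ^ 2 * ‖x‖ ^ (p - 2) := by
    intro i
    rw [mul_assoc]
    refine mul_le_mul_of_nonneg_left ?_ (c.s0 i)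
    rcases eq_or_lt_of_le (abs_nonneg (c.z i x)) with h0 | h0
    · rw [← h0, Real.zero_rpow (by linarith)]
      positivity
    · have h2 : |c.z i x| ^ p = (c.z i x) ^ 2 * |c.z i x| ^ (p - 2) := by
        rw [← sq_abs, ← Real.rpow_natCast, ← Real.rpow_add h0]
        norm_num
      rw [h2]
      refine mul_le_mul_of_nonneg_left ?_ (sq_nonneg _)
      exact Real.rpow_le_rpow (abs_nonneg _) (z_le c i x) (by linarith)
  refine (Finset.sum_le_sum fun i _ => h1 i).trans ?_
  rw [← Finset.sum_mul, iso_sq]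
  rcases eq_or_lt_of_le (norm_nonneg x) with h0 | h0
  · rw [← h0]
    simp
    exact Real.rpow_nonneg le_rfl _
  · rw [← Real.rpow_natCast, ← Real.rpow_add h0]
    norm_num

theorem V_low {p : ℝ} (hp : 2 ≤ p) (hp3 : p ≤ 3) (x : E k) :
    (‖x‖ ^ 2 - 1) / (k + 1) ≤ V c p x := by
  rcases le_or_gt (‖x‖) 1 with h1 | h1
  · refine le_trans ?_ (V_nonneg c p x)
    apply div_nonpos_of_nonpos_of_nonneg _ (by positivity)
    nlinarith [norm_nonneg x]
  have hk : 1 ≤ (k : ℝ) := by
    rcases Nat.eq_zero_or_pos k with h | h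
    · subst h
      have : x = 0 := Subsingleton.elim _ _
      rw [this, norm_zero] at h1
      linarith
    · exact_mod_cast h
  set L : ℝ := (1 / (k : ℝ)) ^ ((p - 2) / 2) with hL
  have hk0 : (0 : ℝ) < k := by linarith
  have hLk : 1 / ((k : ℝ) + 1) ≤ L := by
    have h2 : (1 / (k : ℝ)) ^ (1 : ℝ) ≤ L := by
      rw [hL]
      apply Real.rpow_le_rpow_of_exponent_ge (by positivity)
      · rw [div_le_one hk0]; exact hk
      · linarith
    rw [Real.rpow_one] at h2
    refine le_trans ?_ h2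
    exact one_div_le_one_div_of_le hk0 (by linarith)
  have h2 : ∀ i, c.s i * (L * ((c.z i x) ^ 2 - 1 / k)) ≤ c.s i * |c.z i x| ^ p := by
    intro i
    refine mul_le_mul_of_nonneg_left ?_ (c.s0 i)
    rcases le_or_gt ((c.z i x) ^ 2) (1 / k) with h3 | h3
    · refine le_trans ?_ (Real.rpow_nonneg (abs_nonneg _) _)
      exact mul_nonpos_of_nonneg_of_nonpos (Real.rpow_nonneg (by positivity) _) (by linarith)
    · have h0 : 0 < |c.z i x| := by
        rw [abs_pos]
        rintro h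
        rw [h] at h3
        have : (0 : ℝ) < 1 / k := by positivity
        nlinarith
      have h4 : |c.z i x| ^ p = |c.z i x| ^ (p - 2) * (c.z i x) ^ 2 := by
        rw [← sq_abs (c.z i x), ← Real.rpow_natCast, ← Real.rpow_add h0]
        norm_num
      have h5 : L ≤ |c.z i x| ^ (p - 2) := by
        have h6 : |c.z i x| ^ (p - 2) = ((c.z i x) ^ 2) ^ ((p - 2) / 2) := by
          rw [← sq_abs, ← Real.rpow_natCast, ← Real.rpow_mul h0.le]
          congr 1
          push_cast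
          ring
        rw [h6]
        exact Real.rpow_le_rpow (by positivity) h3.le (by linarith)
      rw [h4]
      have h7 : 0 ≤ (c.z i x) ^ 2 := sq_nonneg _
      have h8 : 0 ≤ L := Real.rpow_nonneg (by positivity) _
      have h9 : (c.z i x) ^ 2 - 1 / k ≤ (c.z i x) ^ 2 := by
        have : (0 : ℝ) < 1 / k := by positivity
        linarith
      calc L * ((c.z i x) ^ 2 - 1 / k) ≤ L * (c.z i x) ^ 2 := mul_le_mul_of_nonneg_left h9 h8
        _ ≤ |c.z i x| ^ (p - 2) * (c.z i x) ^ 2 := mul_le_mul_of_nonneg_right h5 h7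
  have h3 : L * (‖x‖ ^ 2 - 1) ≤ V c p x := by
    refine le_trans (le_of_eq ?_) (Finset.sum_le_sum fun i _ => h2 i)
    have h4 : ∀ i, c.s i * (L * ((c.z i x) ^ 2 - 1 / k)) =
        L * (c.s i * (c.z i x) ^ 2) - L * (1 / k) * c.s i := fun i => by ring
    rw [Finset.sum_congr rfl fun i _ => h4 i, Finset.sum_sub_distrib, ← Finset.mul_sum,
      ← Finset.mul_sum, iso_sq, sum_s]
    field_simp
  refine le_trans ?_ h3
  have h5 : 0 ≤ ‖x‖ ^ 2 - 1 := by nlinarith
  calc (‖x‖ ^ 2 - 1) / (k + 1) = 1 / ((k : ℝ) + 1) * (‖x‖ ^ 2 - 1) := by ring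
    _ ≤ L * (‖x‖ ^ 2 - 1) := mul_le_mul_of_nonneg_right hLk h5

end Pool.Agent.Helper67.BT
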