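import Mathlib

/-!
Sections of coordinate-scaled balls of exponent slightly above two (MP_10bc19_gt): definitions.
-/

open Finset MeasureTheory

namespace Pool.Agent.Helper67.BT

/-- Euclidean space -/
abbrev E (k : ℕ) : Type := EuclideanSpace ℝ (Fin k)

/-- a configuration of weighted unit vectors in isotropic position -/
structure Cfg (n k : ℕ) where
  /-- weights -/
  s : Fin n → ℝ
  /-- unit vectors -/
  e : Fin n → E k
  s0 : ∀ i, 0 ≤ s i
  e1 : ∀ i, ‖e i‖ = 1
  iso : ∀ x y : E k, ∑ i, s i * inner ℝ (e i) x * inner ℝ (e i) y = inner ℝ x y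

/-- the linear forms -/
noncomputable def Cfg.z {n k : ℕ} (c : Cfg n k) (i : Fin n) (x : E k) : ℝ := inner ℝ (c.e i) x

/-- the potential -/
noncomputable def V {n k : ℕ} (c : Cfg n k) (p : ℝ) (x : E k) : ℝ := ∑ i, c.s i * |c.z i x| ^ p

/-- integrals against `exp (- V)` -/
noncomputable def II {n k : ℕ} (c : Cfg n k) (p : ℝ) (F : E k → ℝ) : ℝ :=
  ∫ x, F x * Real.exp (-(V c p x))

/-- averages with respect to the probability density proportional to `exp (- V)` -/
noncomputable def av {n k : ℕ} (c : Cfg n k) (p : ℝ) (F : E k → ℝ) : ℝ :=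
  II c p F / II c p fun _ => 1

/-- continuous functions of polynomial growth -/
def PG {k : ℕ} (F : E k → ℝ) : Prop :=
  Continuous F ∧ ∃ (C : ℝ) (N : ℕ), 0 ≤ C ∧ ∀ x, |F x| ≤ C * (1 + ‖x‖) ^ N

/-- the function `|z|^(p-2) z` -/
noncomputable def ps (p z : ℝ) : ℝ := |z| ^ (p - 2) * z

/-- the function `|z|^(p-2) - 1` -/
noncomputable def om (p z : ℝ) : ℝ := |z| ^ (p - 2) - 1

/-- a primitive of `om` -/
noncomputable def Om (p z : ℝ) : ℝ := ps p z / (p - 1) - z

/-- a primitive of `Om` -/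
noncomputable def O2 (p z : ℝ) : ℝ := |z| ^ p / (p * (p - 1)) - z ^ 2 / 2

/-- directional derivative of the potential -/
noncomputable def dV {n k : ℕ} (c : Cfg n k) (p : ℝ) (v x : E k) : ℝ :=
  p * ∑ i, c.s i * ps p (c.z i x) * inner ℝ (c.e i) v

/-- second derivative of the potential -/
noncomputable def ddV {n k : ℕ} (c : Cfg n k) (p : ℝ) (v w x : E k) : ℝ :=
  p * (p - 1) * ∑ i, c.s i * |c.z i x| ^ (p - 2) * inner ℝ (c.e i) v * inner ℝ (c.e i) w

end Pool.Agent.Helper67.BT
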