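import Pool.Agent.Helper67.BT.Basic2

open Finset MeasureTheory

namespace Pool.Agent.Helper67.BT

variable {n k : ℕ} (c : Cfg n k)

/-! ### derivatives -/

theorem abs_der {p : ℝ} (hp : 1 < p) (z : ℝ) : HasDerivAt (fun z : ℝ => |z| ^ p) (p * ps p z) z := by
  have := hasDerivAt_abs_rpow z hp
  unfold ps
  rw [← mul_assoc]
  exact this

theorem ps_der {p : ℝ} (hp : 2 < p) (z : ℝ) :
    HasDerivAt (fun z : ℝ => ps p z) ((p - 1) * |z| ^ (p - 2)) z := by
  rcases lt_trichotomy z 0 with h | h | h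
  · have h1 : HasDerivAt (fun z : ℝ => (-z) ^ (p - 2) * z)
        ((-1 * (p - 2) * (-z) ^ (p - 2 - 1)) * z + (-z) ^ (p - 2) * 1) z := by
      have h2 : HasDerivAt (fun z : ℝ => -z) (-1) z := hasDerivAt_neg z
      exact (h2.rpow_const (Or.inl (by linarith))).mul (hasDerivAt_id z)
    have h3 : (fun z : ℝ => ps p z) =ᶠ[nhds z] fun z : ℝ => (-z) ^ (p - 2) * z := by
      filter_upwards [eventually_lt_nhds h] with w hw
      unfold ps
      rw [abs_of_neg hw]
    refine (h1.congr_of_eventuallyEq h3).congr_deriv ?_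
    rw [abs_of_neg h]
    have h4 : (-z) ^ (p - 2) = (-z) ^ (p - 2 - 1) * (-z) := by
      rw [← Real.rpow_add_one (by linarith)]
      congr 1
      ring
    rw [h4]
    ring
  · subst h
    rw [abs_zero, Real.zero_rpow (by linarith), mul_zero, hasDerivAt_iff_tendsto_slope_zero]
    have h1 : ∀ t : ℝ, t ≠ 0 → t⁻¹ • (ps p (0 + t) - ps p 0) = |t| ^ (p - 2) := by
      intro t ht
      unfold ps
      rw [zero_add, mul_zero, sub_zero, smul_eq_mul]
      field_simp
    have h2 : Filter.Tendsto (fun t : ℝ => |t| ^ (p - 2)) (nhdsWithin 0 {0}ᶜ) (nhds 0) := by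
      have h3 : Continuous fun t : ℝ => |t| ^ (p - 2) :=
        continuous_abs.rpow_const fun _ => Or.inr (by linarith)
      have h4 := h3.tendsto 0
      rw [abs_zero, Real.zero_rpow (by linarith)] at h4
      exact h4.mono_left nhdsWithin_le_nhds
    refine h2.congr' ?_
    filter_upwards [self_mem_nhdsWithin] with t ht
    exact (h1 t ht).symm
  · have h1 : HasDerivAt (fun z : ℝ => z ^ (p - 2) * z)
        ((1 * (p - 2) * z ^ (p - 2 - 1)) * z + z ^ (p - 2) * 1) z :=
      ((hasDerivAt_id z).rpow_const (Or.inl (by simpa using h.ne'))).mul (hasDerivAt_id z)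
    have h3 : (fun z : ℝ => ps p z) =ᶠ[nhds z] fun z : ℝ => z ^ (p - 2) * z := by
      filter_upwards [eventually_gt_nhds h] with w hw
      unfold ps
      rw [abs_of_pos hw]
    refine (h1.congr_of_eventuallyEq h3).congr_deriv ?_
    rw [abs_of_pos h]
    have h4 : z ^ (p - 2) = z ^ (p - 2 - 1) * z := by
      rw [← Real.rpow_add_one (by linarith)]
      congr 1
      ring
    rw [h4]
    ring

theorem Om_der {p : ℝ} (hp : 2 < p) (z : ℝ) : HasDerivAt (fun z : ℝ => Om p z) (om p z) z := by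
  have h := ((ps_der hp z).div_const (p - 1)).sub (hasDerivAt_id z)
  refine h.congr_deriv ?_
  unfold om
  have : p - 1 ≠ 0 := by linarith
  field_simp

theorem O2_der {p : ℝ} (hp : 2 < p) (z : ℝ) : HasDerivAt (fun z : ℝ => O2 p z) (Om p z) z := by
  have h := ((abs_der (by linarith : 1 < p) z).div_const (p * (p - 1))).sub
    (((hasDerivAt_id z).pow 2).div_const 2)
  refine h.congr_deriv ?_
  unfold Om
  have h1 : p - 1 ≠ 0 := by linarith
  have h2 : p ≠ 0 := by linarith
  simp only [id]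
  field_simp
  ring

theorem inner_line (a x v : E k) :
    HasDerivAt (fun t : ℝ => inner ℝ a (x + t • v)) (inner ℝ a v) 0 := by
  have h : (fun t : ℝ => inner ℝ a (x + t • v)) = fun t : ℝ => inner ℝ a x + t * inner ℝ a v := by
    ext t
    rw [inner_add_right, inner_smul_right]
  rw [h]
  have h2 : HasDerivAt (fun t : ℝ => inner ℝ a x + t * inner ℝ a v) (1 * inner ℝ a v) 0 :=
    ((hasDerivAt_id (0 : ℝ)).mul_const (inner ℝ a v)).const_add (inner ℝ a x)
  rw [one_mul] at h2
  exact h2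

/-- line derivative of a function of a linear form -/
theorem comp_line {f : ℝ → ℝ} {f' : ℝ} (a x v : E k) (h : HasDerivAt f f' (inner ℝ a x)) :
    HasLineDerivAt ℝ (fun x => f (inner ℝ a x)) (f' * inner ℝ a v) x v := by
  have h1 : HasDerivAt f f' (inner ℝ a (x + (0 : ℝ) • v)) := by
    rw [zero_smul, add_zero]
    exact h
  have h2 := h1.comp (0 : ℝ) (inner_line a x v)
  exact h2

theorem V_line {p : ℝ} (hp : 2 < p) (v x : E k) : HasLineDerivAt ℝ (V c p) (dV c p v x) x v := by
  have h1 : ∀ i, HasDerivAt (fun t : ℝ => c.s i * |c.z i (x + t • v)| ^ p)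
      (c.s i * (p * ps p (c.z i x) * inner ℝ (c.e i) v)) 0 := fun i =>
    (comp_line (c.e i) x v (abs_der (by linarith : 1 < p) (c.z i x))).const_mul (c.s i)
  have h2 := HasDerivAt.fun_sum (u := Finset.univ) fun i _ => h1 i
  have h3 : HasDerivAt (fun t : ℝ => V c p (x + t • v))
      (∑ i, c.s i * (p * ps p (c.z i x) * inner ℝ (c.e i) v)) 0 := h2
  refine HasDerivAt.congr_deriv h3 ?_
  unfold dV
  rw [Finset.mul_sum]
  exact Finset.sum_congr rfl fun i _ => by ring

theorem dV_line {p : ℝ} (hp : 2 < p) (v w x : E k) :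
    HasLineDerivAt ℝ (dV c p v) (ddV c p v w x) x w := by
  have h1 : ∀ i, HasDerivAt (fun t : ℝ => c.s i * ps p (c.z i (x + t • w)) * inner ℝ (c.e i) v)
      (c.s i * ((p - 1) * |c.z i x| ^ (p - 2) * inner ℝ (c.e i) w) * inner ℝ (c.e i) v) 0 :=
    fun i => ((comp_line (c.e i) x w (ps_der hp (c.z i x))).const_mul (c.s i)).mul_const _
  have h2 := (HasDerivAt.fun_sum (u := Finset.univ) fun i _ => h1 i).const_mul p
  have h3 : HasDerivAt (fun t : ℝ => dV c p v (x + t • w))
      (p * ∑ i, c.s i * ((p - 1) * |c.z i x| ^ (p - 2) * inner ℝ (c.e i) w) *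
        inner ℝ (c.e i) v) 0 := h2
  refine HasDerivAt.congr_deriv h3 ?_
  unfold ddV
  simp only [Finset.mul_sum]
  exact Finset.sum_congr rfl fun i _ => by ring

/-- integration by parts -/
theorem av_ibp {p : ℝ} (hp : 2 < p) (hp3 : p ≤ 3) {F F' : E k → ℝ} (v : E k) (hF : PG F)
    (hF' : PG F') (h : ∀ x, HasLineDerivAt ℝ F (F' x) x v) :
    av c p (fun x => F x * dV c p v x) = av c p F' :=
  ibp c hp hp3 v hF hF' h (V_line c hp v)

end Pool.Agent.Helper67.BT
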