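import Pool.Agent.Helper67.BT.Stmts

/-!
The inequality for all spanning families, project BT (MP_10bc19_gt).
-/

open Finset MeasureTheory

namespace Pool.Agent.Helper67.BT

variable {n k : ℕ}

theorem loc_int (L : E k ≃ₗ[ℝ] E k) : ∃ J : ℝ, 0 < J ∧ ∀ g : E k → ℝ,
    ∫ y, g y = J * ∫ x, g (L x) := by
  have hdet : LinearMap.det (L : E k →ₗ[ℝ] E k) ≠ 0 := L.isUnit_det'.ne_zero
  refine ⟨|LinearMap.det (L : E k →ₗ[ℝ] E k)|, abs_pos.mpr hdet, fun g => ?_⟩
  have h1 := MeasureTheory.Measure.map_linearMap_addHaar_eq_smul_addHaar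
    (volume : Measure (E k)) hdet
  have h2 : ∫ y, g y ∂(Measure.map (L : E k →ₗ[ℝ] E k) volume) = ∫ x, g (L x) :=
    (L.toContinuousLinearEquiv.toHomeomorph.measurableEmbedding).integral_map g
  rw [h1, integral_smul_measure] at h2
  rw [← h2, smul_eq_mul, ENNReal.toReal_ofReal (abs_nonneg _), ← mul_assoc, ← abs_mul,
    mul_inv_cancel₀ hdet, abs_one, one_mul]

theorem loc_II (c : Cfg n k) {p : ℝ} (hp : 2 ≤ p) (hp3 : p ≤ 3) (v : Fin n → ℝ) :
    (II c p fun x => ∑ i, v i ^ 2 * (c.s i * |c.z i x| ^ p)) =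
      (∑ i, c.s i * v i ^ 2 * av c p fun x => |c.z i x| ^ p) * II c p fun _ => 1 := by
  have hZ := Z_pos c hp hp3
  have hz : ∀ i, PG (fun x : E k => |c.z i x| ^ p) := fun i => PG_rpow (PG_z c i) (by linarith)
  have h1 : (av c p fun x => ∑ i, v i ^ 2 * (c.s i * |c.z i x| ^ p)) =
      ∑ i, c.s i * v i ^ 2 * av c p fun x => |c.z i x| ^ p := by
    rw [av_sum c hp hp3 _ fun i _ => PG_const_mul _ (PG_const_mul _ (hz i))]
    refine Finset.sum_congr rfl fun i _ => ?_
    rw [av_const_mul, av_const_mul]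
    ring
  rw [← h1]
  unfold av
  field_simp

theorem st_LOC (h1 : ST_MAI) (h2 : ST_LEW) : ST_LOC := by
  intro k
  rcases Nat.eq_zero_or_pos k with hk | hk
  · subst hk
    refine ⟨1, one_pos, le_rfl, fun n a p v hp _ _ => ?_⟩
    have hz : ∀ (y : E 0) i, |inner ℝ (a i) y| ^ p = 0 := by
      intro y i
      have : y = 0 := Subsingleton.elim _ _
      rw [this, inner_zero_right, abs_zero, Real.zero_rpow (by linarith)]
    simp [hz]
  · obtain ⟨ε, hε, hε1, hM⟩ := h1 k
    refine ⟨ε, hε, hε1, fun n a p v hp hpε hS => ?_⟩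
    obtain ⟨L, c, hL⟩ := h2 n k p a hk hp hS
    have hp' : (2 : ℝ) ≤ p := hp.le
    have hp3 : p ≤ 3 := by linarith
    have hM' := hM n c p v hp hpε
    have hZ := Z_pos c hp' hp3
    obtain ⟨J, hJ, hJi⟩ := loc_int L
    have e1 : ∫ y, (∑ i, v i * |inner ℝ (a i) y| ^ p) ^ 2 *
        Real.exp (-∑ i, |inner ℝ (a i) y| ^ p) = J * II c p fun x => XX c p v x ^ 2 := by
      rw [hJi]
      congr 2
      ext x
      simp only [hL]
      rfl
    have e2 : ∫ y, Real.exp (-∑ i, |inner ℝ (a i) y| ^ p) = J * II c p fun _ => 1 := by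
      rw [hJi]
      congr 2
      ext x
      simp only [hL, one_mul]
      rfl
    have e3 : ∫ y, (∑ i, v i * |inner ℝ (a i) y| ^ p) *
        Real.exp (-∑ i, |inner ℝ (a i) y| ^ p) = J * II c p (XX c p v) := by
      rw [hJi]
      congr 2
      ext x
      simp only [hL]
      rfl
    have e4 : ∫ y, (∑ i, v i ^ 2 * |inner ℝ (a i) y| ^ p) *
        Real.exp (-∑ i, |inner ℝ (a i) y| ^ p) =
        J * II c p fun x => ∑ i, v i ^ 2 * (c.s i * |c.z i x| ^ p) := by
      rw [hJi]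
      congr 2
      ext x
      simp only [hL]
      rfl
    rw [e1, e2, e3, e4, loc_II c hp' hp3]
    set Z := II c p fun _ => 1 with hZd
    set A := II c p fun x => XX c p v x ^ 2 with hA
    set B := II c p (XX c p v) with hB
    set C := ∑ i, c.s i * v i ^ 2 * av c p fun x => |c.z i x| ^ p with hC
    have h3 : A / Z - (B / Z) ^ 2 ≤ C := hM'
    have h4 : A * Z - B ^ 2 ≤ C * Z * Z := by
      have h5 : A * Z - B ^ 2 = (A / Z - (B / Z) ^ 2) * (Z * Z) := by
        field_simp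
      rw [h5]
      have := mul_le_mul_of_nonneg_right h3 (mul_pos hZ hZ).le
      linarith
    have h6 := mul_le_mul_of_nonneg_left h4 (mul_pos hJ hJ).le
    nlinarith [h6]

end Pool.Agent.Helper67.BT
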