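import Pool.Agent.Helper67.BT.TBB

/-!
The quadratic form of the project BT (MP_10bc19_gt).
-/

open Finset MeasureTheory

namespace Pool.Agent.Helper67.BT

variable {n k : ℕ}

theorem qid_inner (m : Fin k → ℝ) (a x : E k) : inner ℝ (dg m a) x = ∑ l, m l * a l * x l := by
  rw [EuclideanSpace.inner_eq_star_dotProduct]
  simp only [dotProduct, dg, Pi.star_apply, star_trivial]
  refine Finset.sum_congr rfl fun l _ => ?_
  ring

theorem qid_one (a : E k) : dg (fun _ => 1) a = a := by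
  ext l
  simp [dg]

theorem qid_av (c : Cfg n k) {p : ℝ} (hp : 2 ≤ p) (hp3 : p ≤ 3) (u w : Fin k → ℝ) (i : Fin n) :
    (av c p fun x => |c.z i x| ^ (p - 2) * (inner ℝ (dg u (c.e i)) x * inner ℝ (dg w (c.e i)) x)) =
      ∑ l, ∑ l', u l * w l' * (c.e i l * c.e i l') *
        av c p fun x => |c.z i x| ^ (p - 2) * (x l * x l') := by
  have hz : PG (fun x : E k => |c.z i x| ^ (p - 2)) := PG_rpow (PG_z c i) (by linarith)
  have h0 : ∀ l l', PG (fun x : E k => |c.z i x| ^ (p - 2) * (x l * x l')) := fun l l' =>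
    PG_mul hz (PG_mul (PG_coord l) (PG_coord l'))
  have h1 : (fun x : E k => |c.z i x| ^ (p - 2) *
      (inner ℝ (dg u (c.e i)) x * inner ℝ (dg w (c.e i)) x)) =
      fun x => ∑ l, ∑ l', (u l * w l' * (c.e i l * c.e i l')) *
        (|c.z i x| ^ (p - 2) * (x l * x l')) := by
    ext x
    rw [qid_inner, qid_inner, Finset.sum_mul_sum, Finset.mul_sum]
    refine Finset.sum_congr rfl fun l _ => ?_
    rw [Finset.mul_sum]
    refine Finset.sum_congr rfl fun l' _ => ?_
    ring
  rw [h1, av_sum c hp hp3]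
  · refine Finset.sum_congr rfl fun l _ => ?_
    rw [av_sum c hp hp3]
    · refine Finset.sum_congr rfl fun l' _ => ?_
      rw [av_const_mul]
    · exact fun l' _ => PG_const_mul _ (h0 l l')
  · exact fun l _ => PG_sum _ fun l' _ => PG_const_mul _ (h0 l l')

theorem qid_form (c : Cfg n k) {p : ℝ} (hp : 2 ≤ p) (hp3 : p ≤ 3) (u w : Fin k → ℝ) :
    (p * ∑ i, c.s i * av c p fun x => |c.z i x| ^ (p - 2) *
      (inner ℝ (dg u (c.e i)) x * inner ℝ (dg w (c.e i)) x)) =
      ∑ l, ∑ l', u l * w l' * Q c p l l' := by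
  have h1 : ∀ i, (c.s i * av c p fun x => |c.z i x| ^ (p - 2) *
      (inner ℝ (dg u (c.e i)) x * inner ℝ (dg w (c.e i)) x)) =
      ∑ l, ∑ l', u l * w l' * (c.s i * c.e i l * c.e i l' *
        av c p fun x => |c.z i x| ^ (p - 2) * (x l * x l')) := by
    intro i
    rw [qid_av c hp hp3, Finset.mul_sum]
    refine Finset.sum_congr rfl fun l _ => ?_
    rw [Finset.mul_sum]
    refine Finset.sum_congr rfl fun l' _ => ?_
    ring
  rw [Finset.sum_congr rfl fun i _ => h1 i, Finset.sum_comm, Finset.mul_sum]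
  refine Finset.sum_congr rfl fun l _ => ?_
  rw [Finset.sum_comm, Finset.mul_sum]
  refine Finset.sum_congr rfl fun l' _ => ?_
  unfold Q
  rw [← Finset.mul_sum]
  ring

theorem qid_symm (c : Cfg n k) (p : ℝ) (l l' : Fin k) : Q c p l l' = Q c p l' l := by
  unfold Q
  congr 1
  refine Finset.sum_congr rfl fun i _ => ?_
  have : (fun x : E k => |c.z i x| ^ (p - 2) * (x l * x l')) =
      fun x => |c.z i x| ^ (p - 2) * (x l' * x l) := by
    ext x
    ring
  rw [this]
  ring

theorem st_QID (h : ST_IBD) : ST_QID := by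
  intro n k c p m hp hp3
  have hp' : (2 : ℝ) ≤ p := hp.le
  -- the first sum
  have a1 : ∑ l, m l ^ 2 = ∑ l, ∑ l', m l ^ 2 * 1 * Q c p l l' := by
    have h1 := h n k c p (fun l => m l ^ 2) (fun _ => 1) (fun _ _ => 0) hp hp3 (PG_const 1)
      (fun _ => PG_const 0) (fun l x => by
        simpa [HasLineDerivAt] using hasDerivAt_const (0 : ℝ) (1 : ℝ))
    have h2 : (av c p fun x : E k => ∑ l, m l ^ 2 * x l * (0 : ℝ)) = 0 := by
      simp [av_const c hp' hp3]
    rw [h2, av_one c hp' hp3, mul_one, add_zero] at h1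
    rw [← h1, ← qid_form c hp' hp3 (fun l => m l ^ 2) fun _ => 1]
    have h3 : (fun x : E k => (1 : ℝ) * (p * ∑ i, c.s i * ps p (c.z i x) *
        inner ℝ (dg (fun l => m l ^ 2) (c.e i)) x)) =
        fun x => p * ∑ i, c.s i * (|c.z i x| ^ (p - 2) *
          (inner ℝ (dg (fun l => m l ^ 2) (c.e i)) x * inner ℝ (dg (fun _ => 1) (c.e i)) x)) := by
      ext x
      rw [one_mul]
      congr 1
      refine Finset.sum_congr rfl fun i _ => ?_
      rw [qid_one]
      unfold ps Cfg.z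
      ring
    have hz : ∀ i, PG (fun x : E k => |c.z i x| ^ (p - 2) *
        (inner ℝ (dg (fun l => m l ^ 2) (c.e i)) x * inner ℝ (dg (fun _ => 1) (c.e i)) x)) :=
      fun i => PG_mul (PG_rpow (PG_z c i) (by linarith)) (PG_mul (PG_inner _) (PG_inner _))
    rw [h3, av_const_mul, av_sum c hp' hp3 _ fun i _ => PG_const_mul _ (hz i)]
    congr 1
    refine Finset.sum_congr rfl fun i _ => ?_
    rw [av_const_mul]
  -- the second sum
  have a2 : (p * ∑ i, c.s i * av c p fun x => |c.z i x| ^ (p - 2) *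
      (inner ℝ (dg m (c.e i)) x) ^ 2) = ∑ l, ∑ l', m l * m l' * Q c p l l' := by
    rw [← qid_form c hp' hp3 m m]
    congr 1
    refine Finset.sum_congr rfl fun i _ => ?_
    congr 2
    ext x
    ring
  have a3 : ∑ l, ∑ l', m l ^ 2 * 1 * Q c p l l' = ∑ l, ∑ l', m l' ^ 2 * 1 * Q c p l l' := by
    rw [Finset.sum_comm]
    refine Finset.sum_congr rfl fun l _ => Finset.sum_congr rfl fun l' _ => ?_
    rw [qid_symm]
  unfold qq
  rw [a2]
  have a4 : ∑ l, ∑ l', Q c p l l' * (m l - m l') ^ 2 =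
      (∑ l, ∑ l', m l ^ 2 * 1 * Q c p l l') + (∑ l, ∑ l', m l' ^ 2 * 1 * Q c p l l') -
        2 * ∑ l, ∑ l', m l * m l' * Q c p l l' := by
    rw [Finset.mul_sum, ← Finset.sum_add_distrib, ← Finset.sum_sub_distrib]
    refine Finset.sum_congr rfl fun l _ => ?_
    rw [Finset.mul_sum, ← Finset.sum_add_distrib, ← Finset.sum_sub_distrib]
    refine Finset.sum_congr rfl fun l' _ => ?_
    ring
  rw [a4, ← a3, ← a1]
  ring

end Pool.Agent.Helper67.BT
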