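import Pool.Agent.Helper67.BT.TBB

/-!
The reflection estimate of the project BT (MP_10bc19_gt).
-/

open Finset MeasureTheory

namespace Pool.Agent.Helper67.BT

variable {n k : ℕ}

/-- the reflection as a linear isometry -/
noncomputable def rfl_iso (S : Finset (Fin k)) : E k ≃ₗᵢ[ℝ] E k where
  toFun := fl S
  map_add' x y := by
    ext l
    by_cases h : l ∈ S <;> simp [tbb_fl_apply, h]
    ring
  map_smul' t x := by
    ext l
    by_cases h : l ∈ S <;> simp [tbb_fl_apply, h]
  invFun := fl S
  left_inv x := by
    ext l
    by_cases h : l ∈ S <;> simp [tbb_fl_apply, h]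
  right_inv x := by
    ext l
    by_cases h : l ∈ S <;> simp [tbb_fl_apply, h]
  norm_map' x := tbb_norm_fl S x

theorem rfl_fl (S : Finset (Fin k)) (x : E k) : fl S (fl S x) = x := (rfl_iso S).right_inv x

theorem rfl_int (S : Finset (Fin k)) (F : E k → ℝ) : ∫ x, F (fl S x) = ∫ x, F x :=
  (rfl_iso S).measurePreserving.integral_comp (rfl_iso S).toHomeomorph.measurableEmbedding F

theorem rfl_exp (u w : ℝ) :
    |Real.exp (-u) - Real.exp (-w)| ≤ |u - w| * Real.exp (-u) + |u - w| * Real.exp (-w) := by
  have key : ∀ a b : ℝ, a ≤ b → |Real.exp (-a) - Real.exp (-b)| ≤ |a - b| * Real.exp (-a) := by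
    intro a b hab
    have h1 : Real.exp (-b) ≤ Real.exp (-a) := Real.exp_le_exp.mpr (by linarith)
    rw [abs_of_nonneg (by linarith), abs_of_nonpos (by linarith)]
    have h2 := Real.add_one_le_exp (a - b)
    have h3 : Real.exp (-b) = Real.exp (a - b) * Real.exp (-a) := by
      rw [← Real.exp_add]
      ring_nf
    have h4 := Real.exp_pos (-a)
    nlinarith
  rcases le_total u w with h | h
  · have := key u w h
    have h2 : 0 ≤ |u - w| * Real.exp (-w) := by positivity
    linarith
  · have := key w u h
    rw [abs_sub_comm (Real.exp (-w)), abs_sub_comm w u] at this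
    have h2 : 0 ≤ |u - w| * Real.exp (-u) := by positivity
    linarith

theorem st_RFL : ST_RFL := by
  intro n k c p S F hp hp3 hF
  have hp' : (2 : ℝ) ≤ p := hp.le
  have hZ := Z_pos c hp' hp3
  have hV : PG (V c p) := PG_sum _ fun i _ => PG_const_mul _ (PG_rpow (PG_z c i) (by linarith))
  have hVf : PG (fun x => V c p (fl S x)) := tbb_PG_fl S hV
  have hFf : PG (fun x => F (fl S x)) := tbb_PG_fl S hF
  have hD : PG (fun x => |V c p (fl S x) - V c p x|) := PG_abs (PG_sub hVf hV)
  set G : E k → ℝ := fun x => |F (fl S x)| * |V c p (fl S x) - V c p x| with hG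
  have hGP : PG G := PG_mul (PG_abs hFf) hD
  have hG' : ∀ x, G (fl S x) = |F x| * |V c p (fl S x) - V c p x| := by
    intro x
    simp only [hG, rfl_fl]
    rw [abs_sub_comm]
  have hGfP : PG (fun x => G (fl S x)) := tbb_PG_fl S hGP
  -- the integral of `F` after the reflection
  have e1 : II c p F = ∫ x, F (fl S x) * Real.exp (-(V c p (fl S x))) := by
    have := rfl_int S fun x => F x * Real.exp (-(V c p x))
    exact this.symm
  have i1 : Integrable fun x => F x * Real.exp (-(V c p x)) := int_PG c hp' hp3 hF
  have i2 : Integrable fun x => F (fl S x) * Real.exp (-(V c p x)) := int_PG c hp' hp3 hFf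
  have i3 : Integrable fun x => F (fl S x) * Real.exp (-(V c p (fl S x))) := by
    have := (rfl_iso S).measurePreserving.integrable_comp_emb
      (rfl_iso S).toHomeomorph.measurableEmbedding (g := fun x => F x * Real.exp (-(V c p x)))
    exact this.mpr i1
  have i4 : Integrable fun x => G x * Real.exp (-(V c p x)) := int_PG c hp' hp3 hGP
  have i5 : Integrable fun x => G (fl S x) * Real.exp (-(V c p x)) := int_PG c hp' hp3 hGfP
  have i6 : Integrable fun x => G x * Real.exp (-(V c p (fl S x))) := by
    have := (rfl_iso S).measurePreserving.integrable_comp_emb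
      (rfl_iso S).toHomeomorph.measurableEmbedding
      (g := fun x => G (fl S x) * Real.exp (-(V c p x)))
    have h := this.mpr i5
    refine h.congr (Filter.Eventually.of_forall fun x => ?_)
    show G (fl S (fl S x)) * Real.exp (-(V c p (fl S x))) = _
    rw [rfl_fl]
  have e6 : ∫ x, G x * Real.exp (-(V c p (fl S x))) = II c p fun x => G (fl S x) := by
    have := rfl_int S fun x => G (fl S x) * Real.exp (-(V c p x))
    simp only [rfl_fl] at this
    exact this
  have e2 : 2 * II c p F = II c p (fun x => F x + F (fl S x)) +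
      ∫ x, F (fl S x) * (Real.exp (-(V c p (fl S x))) - Real.exp (-(V c p x))) := by
    have h1 : (II c p fun x => F x + F (fl S x)) =
        II c p F + ∫ x, F (fl S x) * Real.exp (-(V c p x)) := by
      unfold II
      rw [← integral_add i1 i2]
      congr 1
      ext x
      ring
    have h2 : ∫ x, F (fl S x) * (Real.exp (-(V c p (fl S x))) - Real.exp (-(V c p x))) =
        II c p F - ∫ x, F (fl S x) * Real.exp (-(V c p x)) := by
      rw [e1, ← integral_sub i3 i2]
      congr 1
      ext x
      ring
    rw [h1, h2]
    ring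
  have e3 : |∫ x, F (fl S x) * (Real.exp (-(V c p (fl S x))) - Real.exp (-(V c p x)))| ≤
      II c p fun x => (|F x| + |F (fl S x)|) * |V c p (fl S x) - V c p x| := by
    have h1 : (II c p fun x => (|F x| + |F (fl S x)|) * |V c p (fl S x) - V c p x|) =
        (∫ x, G x * Real.exp (-(V c p (fl S x)))) + ∫ x, G x * Real.exp (-(V c p x)) := by
      rw [e6]
      unfold II
      rw [← integral_add i5 i4]
      congr 1
      ext x
      rw [hG']
      simp only [hG]
      ring
    rw [h1, ← integral_add i6 i4]
    refine (abs_integral_le_integral_abs).trans ?_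
    refine integral_mono_of_nonneg (Filter.Eventually.of_forall fun x => abs_nonneg _)
      (i6.add i4) (Filter.Eventually.of_forall fun x => ?_)
    have h2 := rfl_exp (V c p (fl S x)) (V c p x)
    simp only [hG]
    rw [abs_mul]
    have h3 := mul_le_mul_of_nonneg_left h2 (abs_nonneg (F (fl S x)))
    refine h3.trans (le_of_eq ?_)
    ring
  have e4 : |2 * II c p F| ≤ |II c p fun x => F x + F (fl S x)| +
      II c p fun x => (|F x| + |F (fl S x)|) * |V c p (fl S x) - V c p x| := by
    rw [e2]
    exact (abs_add_le _ _).trans (by linarith)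
  unfold av
  rw [abs_div, abs_of_pos hZ, ← add_div, ← mul_div_assoc, abs_div, abs_of_pos hZ]
  exact div_le_div_of_nonneg_right e4 hZ.le

end Pool.Agent.Helper67.BT
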