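import Pool.Agent.Helper67.BT.Stmts

open Finset MeasureTheory

namespace Pool.Agent.Helper67.BT

variable {n k : ℕ} (c : Cfg n k)

theorem tbb_pr_apply (S : Finset (Fin k)) (x : E k) (l : Fin k) :
    pr S x l = if l ∈ S then x l else 0 := rfl

theorem tbb_fl_apply (S : Finset (Fin k)) (x : E k) (l : Fin k) :
    fl S x l = if l ∈ S then x l else -x l := rfl

theorem tbb_pr_smul (S : Finset (Fin k)) (t : ℝ) (x : E k) : pr S (t • x) = t • pr S x := by
  ext l
  simp [tbb_pr_apply]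

theorem tbb_pr_pr (S : Finset (Fin k)) (x : E k) : pr S (pr S x) = pr S x := by
  ext l
  by_cases h : l ∈ S <;> simp [tbb_pr_apply, h]

theorem tbb_inner (a x : E k) : (inner ℝ a x : ℝ) = ∑ l, a l * x l := by
  rw [PiLp.inner_apply]
  exact Finset.sum_congr rfl fun l _ => by
    simp [mul_comm]

theorem tbb_inner_pr (S : Finset (Fin k)) (a : E k) : inner ℝ a (pr S a) = ‖pr S a‖ ^ 2 := by
  rw [← real_inner_self_eq_norm_sq, tbb_inner, tbb_inner]
  refine Finset.sum_congr rfl fun l _ => ?_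
  by_cases h : l ∈ S <;> simp [tbb_pr_apply, h]

theorem tbb_split (S : Finset (Fin k)) (a x : E k) :
    inner ℝ a x = inner ℝ (pr S a) x + inner ℝ (pr Sᶜ a) x := by
  rw [tbb_inner, tbb_inner, tbb_inner, ← Finset.sum_add_distrib]
  refine Finset.sum_congr rfl fun l _ => ?_
  by_cases h : l ∈ S <;> simp [tbb_pr_apply, h]

theorem tbb_split_fl (S : Finset (Fin k)) (a x : E k) :
    inner ℝ a (fl S x) = inner ℝ (pr S a) x - inner ℝ (pr Sᶜ a) x := by
  rw [tbb_inner, tbb_inner, tbb_inner, ← Finset.sum_sub_distrib]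
  refine Finset.sum_congr rfl fun l _ => ?_
  by_cases h : l ∈ S <;> simp [tbb_pr_apply, tbb_fl_apply, h]

theorem tbb_norm_fl (S : Finset (Fin k)) (x : E k) : ‖fl S x‖ = ‖x‖ := by
  rw [EuclideanSpace.norm_eq, EuclideanSpace.norm_eq]
  congr 1
  refine Finset.sum_congr rfl fun l _ => ?_
  by_cases h : l ∈ S <;> simp [tbb_fl_apply, h]

theorem tbb_norm_pr (S : Finset (Fin k)) (x : E k) : ‖pr S x‖ ≤ ‖x‖ := by
  rw [EuclideanSpace.norm_eq, EuclideanSpace.norm_eq]
  refine Real.sqrt_le_sqrt (Finset.sum_le_sum fun l _ => ?_)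
  by_cases h : l ∈ S
  · simp [tbb_pr_apply, h]
  · simp [tbb_pr_apply, h]
    positivity

theorem tbb_fl_cont (S : Finset (Fin k)) : Continuous (fl S) := by
  unfold fl
  refine (PiLp.continuous_toLp 2 _).comp (continuous_pi fun l => ?_)
  by_cases h : l ∈ S
  · simp only [h, if_true]
    fun_prop
  · simp only [h, if_false]
    fun_prop

theorem tbb_PG_fl (S : Finset (Fin k)) {F : E k → ℝ} (hF : PG F) : PG (fun x => F (fl S x)) := by
  obtain ⟨h1, C, N, hC, h2⟩ := hF
  refine ⟨h1.comp (tbb_fl_cont S), C, N, hC, fun x => ?_⟩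
  have := h2 (fl S x)
  rwa [tbb_norm_fl] at this

theorem tbb_coord (x : E k) (l : Fin k) : |x l| ≤ ‖x‖ := by simpa using PiLp.norm_apply_le x l

theorem tbb_av_le {p : ℝ} (hp : 2 ≤ p) (hp3 : p ≤ 3) {M : ℝ}
    (hM : av c p (fun x => (1 + ‖x‖) ^ 9) ≤ M) {F : E k → ℝ} (hF : PG F) {C : ℝ} (hC : 0 ≤ C)
    (h : ∀ x, |F x| ≤ C * (1 + ‖x‖) ^ 9) : |av c p F| ≤ C * M := by
  have h1 := av_abs_le c hp hp3 hF (PG_const_mul C (PG_pow (PG_add (PG_const 1) PG_norm) 9)) h
  rw [av_const_mul] at h1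
  exact h1.trans (mul_le_mul_of_nonneg_left hM hC)

theorem tbb_pow_le {r : ℝ} (hr : 0 ≤ r) {a b : ℕ} (h : a ≤ b) : (1 + r) ^ a ≤ (1 + r) ^ b :=
  pow_le_pow_right₀ (by linarith) h

/-- the real inequality at the end -/
theorem tbb_final (T A B R M K1 KV kk ε a1 a2 a3 F2 : ℝ) (hA : 1 / 2 ≤ A) (hε : 0 ≤ ε)
    (hB : 0 ≤ B) (hR : 0 ≤ R) (hM : 1 ≤ M) (hK1 : 0 ≤ K1) (hKV : 1 ≤ KV) (hkk : 0 ≤ kk)
    (e0 : A * T = F2) (e1 : |2 * F2| ≤ |a1 + a2| + a3) (e2 : |A * a1| ≤ 16 * K1 * ε * B * M)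
    (e3 : |a2| ≤ 2 * KV * ε * R * M) (e4 : a3 ≤ 4 * (3 * kk + 1) * KV * ε * R * M) :
    |T| ≤ M * (32 * K1 + (12 * kk + 6) * KV) * ε * (B + R) := by
  have hA0 : 0 < A := by linarith
  have h1 : A * |a1| ≤ 16 * K1 * ε * B * M := by rwa [abs_mul, abs_of_pos hA0] at e2
  have h2 : |a1| ≤ 32 * K1 * ε * B * M := by
    have := abs_nonneg a1
    nlinarith
  have h3 : 2 * (A * |T|) ≤ |a1| + |a2| + a3 := by
    have h4 : |2 * F2| = 2 * (A * |T|) := by
      rw [← e0, abs_mul, abs_mul, abs_of_pos hA0]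
      norm_num
    rw [← h4]
    linarith [abs_add_le a1 a2]
  have h5 : |T| ≤ |a1| + |a2| + a3 := by
    have := abs_nonneg T
    nlinarith
  have h6 : 0 ≤ M * ((12 * kk + 6) * KV) * ε * B := by positivity
  have h7 : 0 ≤ M * (32 * K1) * ε * R := by positivity
  nlinarith

theorem st_TBB (h1 : ST_PT) (h2 : ST_DVB) (h3 : ST_RFL) (h4 : ST_VRF) (h5 : ST_TBA) : ST_TBB := by
  intro k
  obtain ⟨M, hM1, hM⟩ := exists_K k 9
  obtain ⟨KV, hKV1, hKV⟩ := h4 k
  set K1 : ℝ := (3 * k + 1) * (3 * k) + 9 * k with hK1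
  have hK10 : 0 ≤ K1 := by positivity
  refine ⟨M * (32 * K1 + (12 * k + 6) * KV), ?_, ?_⟩
  · have : (6 : ℝ) ≤ 32 * K1 + (12 * k + 6) * KV := by
      have h0 : (0 : ℝ) ≤ k := Nat.cast_nonneg k
      nlinarith
    nlinarith
  intro n c p S l l' i hp hp3 hl hl' hA2
  have hp' : 2 ≤ p := hp.le
  have hε : 0 ≤ p - 2 := by linarith
  set u : E k := c.e i with hu
  set A : ℝ := ‖pr S u‖ with hA
  set B : ℝ := ‖pr Sᶜ u‖ with hB
  have hA0 : 0 ≤ A := norm_nonneg _
  have hB0 : 0 ≤ B := norm_nonneg _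
  have hAh : 1 / 2 ≤ A := by nlinarith
  have hAp : 0 < A := by linarith
  have hA1 : A ≤ 1 := by
    have := tbb_norm_pr S u
    rwa [hu, c.e1 i] at this
  have hB1 : B ≤ 1 := by
    have := tbb_norm_pr Sᶜ u
    rwa [hu, c.e1 i] at this
  set v : E k := A⁻¹ • pr S u with hv
  have hv1 : ‖v‖ = 1 := by
    rw [hv, norm_smul, norm_inv, Real.norm_of_nonneg hA0]
    exact inv_mul_cancel₀ hAp.ne'
  have hvS : pr S v = v := by rw [hv, tbb_pr_smul, tbb_pr_pr]
  have huv : inner ℝ u v = A := by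
    rw [hv, inner_smul_right, tbb_inner_pr]
    field_simp
    rfl
  obtain ⟨t1, t2⟩ := h5 n k c p S l l' i v hp hp3 hl hl' hvS
  rw [← hu, huv] at t1 t2
  set R : ℝ := Real.sqrt (kap c S) with hR
  have hR0 : 0 ≤ R := Real.sqrt_nonneg _
  have PG1 : PG (fun x => Om p (c.z i x)) := PG_Om (PG_z c i) hp'
  have PG2 : PG (fun x : E k => Om p (c.z i (fl S x))) := tbb_PG_fl S PG1
  have PG3 : PG (fun x : E k => x l') := PG_coord l'
  have PG4 : PG (fun x : E k => dV c p v x * x l - v l) :=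
    PG_sub (PG_mul (PG_dV c hp' v) (PG_coord l)) (PG_const _)
  have PG4' : PG (fun x : E k => dV c p v (fl S x) * x l - v l) :=
    PG_sub (PG_mul (tbb_PG_fl S (PG_dV c hp' v)) (PG_coord l)) (PG_const _)
  have PGF : PG (fun x => Om p (c.z i x) * x l' * (dV c p v x * x l - v l)) :=
    PG_mul (PG_mul PG1 PG3) PG4
  have PGFf := tbb_PG_fl S PGF
  have PGV : PG (fun x => V c p (fl S x) - V c p x) := by
    have hVP : PG (V c p) := PG_sum _ fun i _ => PG_const_mul _ (PG_rpow (PG_z c i) (by linarith))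
    exact PG_sub (tbb_PG_fl S hVP) hVP
  have hT3 := h3 n k c p S _ hp hp3 PGF
  have hfl : ∀ x : E k, (fl S x) l = x l := fun x => by simp [tbb_fl_apply, hl]
  have hfl' : ∀ x : E k, (fl S x) l' = -x l' := fun x => by simp [tbb_fl_apply, hl']
  have hsum : (fun x => Om p (c.z i x) * x l' * (dV c p v x * x l - v l) +
      Om p (c.z i (fl S x)) * (fl S x) l' * (dV c p v (fl S x) * (fl S x) l - v l)) =
      fun x => (Om p (c.z i x) - Om p (c.z i (fl S x))) * x l' * (dV c p v x * x l - v l) +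
        Om p (c.z i (fl S x)) * x l' * ((dV c p v x * x l - v l) -
          (dV c p v (fl S x) * x l - v l)) := by
    ext x
    rw [hfl, hfl']
    ring
  rw [hsum, av_add c hp' hp3 (PG_mul (PG_mul (PG_sub PG1 PG2) PG3) PG4)
    (PG_mul (PG_mul PG2 PG3) (PG_sub PG4 PG4'))] at hT3
  have hz : ∀ x, |c.z i x| ≤ ‖x‖ := z_le c i
  have bOm : ∀ x : E k, |Om p (c.z i x)| ≤ 2 * (p - 2) * (1 + ‖x‖) ^ 2 := by
    intro x
    refine ((h1 p (c.z i x) 0 0 hp hp3).2.1).trans ?_
    have : (1 + |c.z i x|) ^ 2 ≤ (1 + ‖x‖) ^ 2 :=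
      pow_le_pow_left₀ (by positivity) (by linarith [hz x]) 2
    exact mul_le_mul_of_nonneg_left this (by linarith)
  have bOmf : ∀ x : E k, |Om p (c.z i (fl S x))| ≤ 2 * (p - 2) * (1 + ‖x‖) ^ 2 := by
    intro x
    have := bOm (fl S x)
    rwa [tbb_norm_fl] at this
  have bv : |v l| ≤ 1 := by
    have := tbb_coord v l
    rwa [hv1] at this
  have bdV : ∀ x : E k, |dV c p v x| ≤ 3 * k * (1 + ‖x‖) ^ 2 := by
    intro x
    have := (h2 n k c p v x hp hp3).1
    rwa [hv1, mul_one] at this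
  have bddV : ∀ x : E k, |ddV c p v v x| ≤ 6 * k * (1 + ‖x‖) := by
    intro x
    have := (h2 n k c p v x hp hp3).2
    rwa [hv1, one_pow, mul_one] at this
  have bG : ∀ x : E k, |dV c p v x * x l - v l| ≤ (3 * k + 1) * (1 + ‖x‖) ^ 3 := by
    intro x
    have hr := norm_nonneg x
    have e1 : |dV c p v x * x l| ≤ 3 * k * (1 + ‖x‖) ^ 2 * (1 + ‖x‖) := by
      rw [abs_mul]
      exact mul_le_mul (bdV x) ((tbb_coord x l).trans (by linarith)) (abs_nonneg _) (by positivity)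
    have e2 : (1 : ℝ) ≤ (1 + ‖x‖) ^ 3 := one_le_pow₀ (by linarith)
    refine (abs_sub _ _).trans ?_
    nlinarith
  have bF : ∀ x : E k, |Om p (c.z i x) * x l' * (dV c p v x * x l - v l)| ≤
      2 * (3 * k + 1) * (p - 2) * (1 + ‖x‖) ^ 6 := by
    intro x
    have hr := norm_nonneg x
    rw [abs_mul, abs_mul]
    have e1 : |Om p (c.z i x)| * |x l'| ≤ (2 * (p - 2) * (1 + ‖x‖) ^ 2) * (1 + ‖x‖) :=
      mul_le_mul (bOm x) ((tbb_coord x l').trans (by linarith)) (abs_nonneg _) (by positivity)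
    calc |Om p (c.z i x)| * |x l'| * |dV c p v x * x l - v l|
        ≤ ((2 * (p - 2) * (1 + ‖x‖) ^ 2) * (1 + ‖x‖)) * ((3 * k + 1) * (1 + ‖x‖) ^ 3) :=
          mul_le_mul e1 (bG x) (abs_nonneg _) (by positivity)
      _ = _ := by ring
  have bFf : ∀ x : E k, |Om p (c.z i (fl S x)) * (fl S x) l' *
      (dV c p v (fl S x) * (fl S x) l - v l)| ≤
      2 * (3 * k + 1) * (p - 2) * (1 + ‖x‖) ^ 6 := by
    intro x
    have := bF (fl S x)
    rwa [tbb_norm_fl] at this
  have bV : ∀ x : E k, |V c p (fl S x) - V c p x| ≤ KV * R * (1 + ‖x‖) ^ 3 := fun x =>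
    (hKV n c p S v x hp hp3).1
  have bdG : ∀ x : E k, |dV c p v (fl S x) - dV c p v x| ≤ KV * R * (1 + ‖x‖) ^ 2 := fun x =>
    (hKV n c p S v x hp hp3).2 hvS hv1.le
  refine tbb_final _ A B R M K1 KV k (p - 2) _ _ _ _ hAh hε hB0 hR0 hM1 hK10 hKV1
    (Nat.cast_nonneg k) t1 hT3 ?_ ?_ ?_
  · rw [t2]
    refine tbb_av_le c hp' hp3 (hM n c p hp' hp3) ?_ (C := 16 * K1 * (p - 2) * B) (by positivity) ?_
    · refine PG_mul (PG_mul (PG_sub (PG_O2 (PG_z c i) hp') (tbb_PG_fl S (PG_O2 (PG_z c i) hp')))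
        PG3) (PG_sub (PG_mul PG4 (PG_dV c hp' v)) (PG_add (PG_mul (PG_ddV c hp' v v) (PG_coord l))
        (PG_mul (PG_dV c hp' v) (PG_const _))))
    · intro x
      have hr := norm_nonneg x
      set r := ‖x‖ with hrdef
      set a := inner ℝ (pr S u) x with ha
      set b := inner ℝ (pr Sᶜ u) x with hb
      have ea : |a| ≤ r := by
        refine (abs_real_inner_le_norm _ _).trans ?_
        nlinarith
      have eb : |b| ≤ B * r := abs_real_inner_le_norm _ _
      have eb' : |b| ≤ r := eb.trans (by nlinarith)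
      have ez : c.z i x = a + b := tbb_split S u x
      have ezf : c.z i (fl S x) = a - b := tbb_split_fl S u x
      have e1 : |O2 p (c.z i x) - O2 p (c.z i (fl S x))| ≤ 16 * (p - 2) * B * (1 + r) ^ 3 := by
        rw [ez, ezf]
        refine ((h1 p 0 a b hp hp3).2.2.1).trans ?_
        have f1 : (1 + |a| + |b|) ^ 2 ≤ 4 * (1 + r) ^ 2 := by
          have : 1 + |a| + |b| ≤ 2 * (1 + r) := by linarith
          calc (1 + |a| + |b|) ^ 2 ≤ (2 * (1 + r)) ^ 2 :=
                pow_le_pow_left₀ (by positivity) this 2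
            _ = 4 * (1 + r) ^ 2 := by ring
        have f2 : |b| ≤ B * (1 + r) := eb.trans (mul_le_mul_of_nonneg_left (by linarith) hB0)
        calc 4 * (p - 2) * |b| * (1 + |a| + |b|) ^ 2
            ≤ 4 * (p - 2) * (B * (1 + r)) * (4 * (1 + r) ^ 2) := by
              refine mul_le_mul (mul_le_mul_of_nonneg_left f2 (by linarith)) f1 (by positivity)
                (by positivity)
          _ = _ := by ring
      have e2 : |x l'| ≤ 1 + r := (tbb_coord x l').trans (by linarith)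
      have e3 : |(dV c p v x * x l - v l) * dV c p v x - (ddV c p v v x * x l + dV c p v x * v l)|
          ≤ K1 * (1 + r) ^ 5 := by
        have g1 : |(dV c p v x * x l - v l) * dV c p v x| ≤
            ((3 * k + 1) * (1 + r) ^ 3) * (3 * k * (1 + r) ^ 2) := by
          rw [abs_mul]
          exact mul_le_mul (bG x) (bdV x) (abs_nonneg _) (by positivity)
        have g2 : |ddV c p v v x * x l| ≤ 6 * k * (1 + r) * (1 + r) := by
          rw [abs_mul]
          exact mul_le_mul (bddV x) ((tbb_coord x l).trans (by linarith)) (abs_nonneg _)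
            (by positivity)
        have g3 : |dV c p v x * v l| ≤ 3 * k * (1 + r) ^ 2 * 1 := by
          rw [abs_mul]
          exact mul_le_mul (bdV x) bv (abs_nonneg _) (by positivity)
        have g4 : (1 + r) ^ 2 ≤ (1 + r) ^ 5 := tbb_pow_le hr (by norm_num)
        have g5 : |(dV c p v x * x l - v l) * dV c p v x - (ddV c p v v x * x l +
            dV c p v x * v l)| ≤ |(dV c p v x * x l - v l) * dV c p v x| +
            (|ddV c p v v x * x l| + |dV c p v x * v l|) :=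
          (abs_sub _ _).trans (add_le_add le_rfl (abs_add_le _ _))
        have g6 : (0 : ℝ) ≤ k := Nat.cast_nonneg k
        have g7 : (9 * (k : ℝ)) * (1 + r) ^ 2 ≤ (9 * k) * (1 + r) ^ 5 :=
          mul_le_mul_of_nonneg_left g4 (by positivity)
        rw [hK1]
        calc _ ≤ _ := g5
          _ ≤ ((3 * k + 1) * (1 + r) ^ 3) * (3 * k * (1 + r) ^ 2) +
              (6 * k * (1 + r) * (1 + r) + 3 * k * (1 + r) ^ 2 * 1) := by linarith
          _ = (3 * k + 1) * (3 * k) * (1 + r) ^ 5 + (9 * k) * (1 + r) ^ 2 := by ring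
          _ ≤ (3 * k + 1) * (3 * k) * (1 + r) ^ 5 + (9 * k) * (1 + r) ^ 5 := by linarith
          _ = _ := by ring
      rw [abs_mul, abs_mul]
      calc |O2 p (c.z i x) - O2 p (c.z i (fl S x))| * |x l'| * |(dV c p v x * x l - v l) *
          dV c p v x - (ddV c p v v x * x l + dV c p v x * v l)|
          ≤ (16 * (p - 2) * B * (1 + r) ^ 3) * (1 + r) * (K1 * (1 + r) ^ 5) := by
            refine mul_le_mul (mul_le_mul e1 e2 (abs_nonneg _) (by positivity)) e3 (abs_nonneg _)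
              (by positivity)
        _ = _ := by ring
  · refine tbb_av_le c hp' hp3 (hM n c p hp' hp3) ?_ (C := 2 * KV * (p - 2) * R) (by positivity) ?_
    · exact PG_mul (PG_mul PG2 PG3) (PG_sub PG4 PG4')
    · intro x
      have hr := norm_nonneg x
      have e1 : |(dV c p v x * x l - v l) - (dV c p v (fl S x) * x l - v l)| ≤
          KV * R * (1 + ‖x‖) ^ 2 * (1 + ‖x‖) := by
        have : (dV c p v x * x l - v l) - (dV c p v (fl S x) * x l - v l) =
            -((dV c p v (fl S x) - dV c p v x) * x l) := by ring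
        rw [this, abs_neg, abs_mul]
        exact mul_le_mul (bdG x) ((tbb_coord x l).trans (by linarith)) (abs_nonneg _)
          (by positivity)
      rw [abs_mul, abs_mul]
      calc |Om p (c.z i (fl S x))| * |x l'| * |(dV c p v x * x l - v l) -
          (dV c p v (fl S x) * x l - v l)|
          ≤ (2 * (p - 2) * (1 + ‖x‖) ^ 2) * (1 + ‖x‖) * (KV * R * (1 + ‖x‖) ^ 2 * (1 + ‖x‖)) := by
            refine mul_le_mul (mul_le_mul (bOmf x) ((tbb_coord x l').trans (by linarith))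
              (abs_nonneg _) (by positivity)) e1 (abs_nonneg _) (by positivity)
        _ = 2 * KV * (p - 2) * R * (1 + ‖x‖) ^ 6 := by ring
        _ ≤ 2 * KV * (p - 2) * R * (1 + ‖x‖) ^ 9 :=
            mul_le_mul_of_nonneg_left (tbb_pow_le hr (by norm_num)) (by positivity)
  · have e1 : ∀ x : E k, (|Om p (c.z i x) * x l' * (dV c p v x * x l - v l)| +
        |Om p (c.z i (fl S x)) * (fl S x) l' * (dV c p v (fl S x) * (fl S x) l - v l)|) *
        |V c p (fl S x) - V c p x| ≤ (4 * (3 * k + 1) * KV * (p - 2) * R) * (1 + ‖x‖) ^ 9 := by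
      intro x
      have hr := norm_nonneg x
      have f1 := bF x
      have f2 := bFf x
      calc _ ≤ (4 * (3 * k + 1) * (p - 2) * (1 + ‖x‖) ^ 6) * (KV * R * (1 + ‖x‖) ^ 3) := by
            refine mul_le_mul (by linarith) (bV x) (abs_nonneg _) (by positivity)
        _ = _ := by ring
    have e2 := av_mono c hp' hp3 (PG_mul (PG_add (PG_abs PGF) (PG_abs PGFf)) (PG_abs PGV))
      (PG_const_mul (4 * (3 * k + 1) * KV * (p - 2) * R)
        (PG_pow (PG_add (PG_const 1) PG_norm) 9)) e1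
    rw [av_const_mul] at e2
    exact e2.trans (mul_le_mul_of_nonneg_left (hM n c p hp' hp3) (by positivity))

end Pool.Agent.Helper67.BT
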