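import Pool.Agent.Helper71.BT.PT
import Pool.Agent.Helper42.BT.DVB
import Pool.Agent.Helper78.BT.LB
import Pool.Agent.Helper52.BT.GB
import Pool.Agent.Helper81.BT.IBD
import Pool.Agent.Helper57.BT.DID
import Pool.Agent.Helper51.BT.VRF
import Pool.Agent.Helper14.BT.TBA
import Pool.Agent.Helper67.BT.TBB
import Pool.Agent.Helper68.BT.CUT
import Pool.Agent.Helper93.BT.GAP
import Pool.Agent.Helper97.BT.QB
import Pool.Agent.Helper93.BT.DIA
import Pool.Agent.Helper97.BT.MAI
import Pool.Agent.Helper97.BT.LWA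
import Pool.Agent.Helper51.BT.LWB
import Pool.Agent.Helper15.BT.LEW
import Pool.Agent.Helper20.BT.SDE
import Pool.Agent.Helper24.BT.SEC
import Pool.Agent.Helper25.BT.FIN
import Pool.Agent.Helper67.BT.LOC
import Pool.Agent.Helper67.BT.QID
import Pool.Agent.Helper67.BT.RFL

/-!
Assembly of the project BT (MP_10bc19_gt).
-/

namespace Pool.Agent.Helper67.BT

theorem fin_of (hL : ST_MAI → ST_LEW → ST_LOC) (hQ : ST_IBD → ST_QID) (hR : ST_RFL) : ST_FIN := by
  have pt := st_PT
  have dvb := st_DVB pt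
  have lb := st_LB pt dvb
  have gb := st_GB pt
  have ibd := st_IBD
  have did := st_DID ibd
  have vrf := st_VRF pt
  have tbb := st_TBB pt dvb hR vrf st_TBA
  have cut := st_CUT tbb
  have qb := st_QB cut st_GAP (hQ ibd)
  have dia := st_DIA did lb gb qb
  have mai := st_MAI dia
  have lew := st_LEW st_LWA st_LWB
  exact st_FIN (st_SEC (hL mai lew) st_SDE)

theorem main : ST_FIN := fin_of st_LOC st_QID st_RFL

end Pool.Agent.Helper67.BT
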