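import Pool.Agent.Helper67.BT.Der
import Pool.Agent.Helper86.LP.Section

/-!
Statements of the project BT (MP_10bc19_gt, exponents slightly above two).
-/

open Finset MeasureTheory

namespace Pool.Agent.Helper67.BT

/-- projection to the coordinates of `S` -/
noncomputable def pr {k : ℕ} (S : Finset (Fin k)) (x : E k) : E k :=
  WithLp.toLp 2 fun l => if l ∈ S then x l else 0

/-- change of the signs of the coordinates outside `S` -/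
noncomputable def fl {k : ℕ} (S : Finset (Fin k)) (x : E k) : E k :=
  WithLp.toLp 2 fun l => if l ∈ S then x l else -x l

/-- the interaction of the coordinates in `S` and outside `S` -/
noncomputable def kap {n k : ℕ} (c : Cfg n k) (S : Finset (Fin k)) : ℝ :=
  ∑ i, c.s i * ‖pr S (c.e i)‖ ^ 2 * ‖pr Sᶜ (c.e i)‖ ^ 2

/-- diagonal matrices -/
noncomputable def dg {k : ℕ} (m : Fin k → ℝ) (x : E k) : E k := WithLp.toLp 2 fun l => m l * x l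

/-- the numbers `Q` -/
noncomputable def Q {n k : ℕ} (c : Cfg n k) (p : ℝ) (l l' : Fin k) : ℝ :=
  p * ∑ i, c.s i * c.e i l * c.e i l' * av c p fun x => |c.z i x| ^ (p - 2) * (x l * x l')

/-- the quadratic form `q` -/
noncomputable def qq {n k : ℕ} (c : Cfg n k) (p : ℝ) (m : Fin k → ℝ) : ℝ :=
  ∑ l, m l ^ 2 - p * ∑ i, c.s i * av c p fun x => |c.z i x| ^ (p - 2) *
    (inner ℝ (dg m (c.e i)) x) ^ 2

/-- the matrix `∑ s_i v_i e_i ⊗ e_i` is the diagonal matrix `m` -/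
def Dg {n k : ℕ} (c : Cfg n k) (v : Fin n → ℝ) (m : Fin k → ℝ) : Prop :=
  ∀ l l', ∑ i, c.s i * v i * c.e i l * c.e i l' = if l = l' then m l else 0

/-- the vectors `(M - v_i) e_i` -/
noncomputable def ff {n k : ℕ} (c : Cfg n k) (v : Fin n → ℝ) (m : Fin k → ℝ) (i : Fin n) : E k :=
  dg m (c.e i) - v i • c.e i

/-- the linear combination of the variables -/
noncomputable def XX {n k : ℕ} (c : Cfg n k) (p : ℝ) (v : Fin n → ℝ) (x : E k) : ℝ :=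
  ∑ i, v i * (c.s i * |c.z i x| ^ p)

/-- the vectors span the space -/
def Sp {n k : ℕ} (a : Fin n → E k) : Prop := ∀ y : E k, (∀ i, inner ℝ (a i) y = 0) → y = 0

/-- the weight with parameters -/
noncomputable def wt {n k : ℕ} (a : Fin n → E k) (p : ℝ) (τ v : Fin n → ℝ) (t : ℝ) (y : E k) : ℝ :=
  Real.exp (-∑ i, Real.exp (τ i + t * v i) * |inner ℝ (a i) y| ^ p)

/-- the derivatives of the exponent -/
noncomputable def Xt {n k : ℕ} (a : Fin n → E k) (p : ℝ) (τ v : Fin n → ℝ) (j : ℕ) (t : ℝ)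
    (y : E k) : ℝ := ∑ i, v i ^ j * (Real.exp (τ i + t * v i) * |inner ℝ (a i) y| ^ p)

/-! ### A. Estimates -/

/-- PT: pointwise estimates. -/
def ST_PT : Prop := ∀ p z a b : ℝ, 2 < p → p ≤ 3 →
  |om p z * z| ≤ (p - 2) * (1 + |z|) ^ 2 ∧
  |Om p z| ≤ 2 * (p - 2) * (1 + |z|) ^ 2 ∧
  |O2 p (a + b) - O2 p (a - b)| ≤ 4 * (p - 2) * |b| * (1 + |a| + |b|) ^ 2 ∧
  |ps p (a + b) - ps p (a - b)| ≤ 4 * |b| * (1 + |a| + |b|) ∧
  abs (|a + b| ^ p - |a - b| ^ p) ≤ 6 * |b| * (1 + |a| + |b|) ^ 2 ∧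
  |ps p z| ≤ (1 + |z|) ^ 2 ∧ |z| ^ (p - 2) ≤ 1 + |z|

/-- DVB: bounds for the derivatives of the potential. -/
def ST_DVB : Prop := ∀ (n k : ℕ) (c : Cfg n k) (p : ℝ) (v x : E k), 2 < p → p ≤ 3 →
  |dV c p v x| ≤ 3 * k * ‖v‖ * (1 + ‖x‖) ^ 2 ∧ |ddV c p v v x| ≤ 6 * k * ‖v‖ ^ 2 * (1 + ‖x‖)

/-- LB: lower bound. -/
def ST_LB : Prop := ∀ k : ℕ, ∃ K : ℝ, 1 ≤ K ∧ ∀ (n : ℕ) (c : Cfg n k) (p : ℝ) (i : Fin n)
  (f : E k), 2 < p → p ≤ 3 →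
  (1 / K - K * (p - 2)) * ‖f‖ ^ 2 ≤ av c p fun x => |c.z i x| ^ (p - 2) * (inner ℝ f x) ^ 2

/-- GB: upper bound for the error term. -/
def ST_GB : Prop := ∀ k : ℕ, ∃ K : ℝ, 1 ≤ K ∧ ∀ (n : ℕ) (c : Cfg n k) (p : ℝ) (f : Fin n → E k),
  2 < p → p ≤ 3 →
  (av c p fun x => (∑ i, c.s i * (om p (c.z i x) * c.z i x) * inner ℝ (f i) x) ^ 2) ≤
    K * (p - 2) ^ 2 * ∑ i, c.s i * ‖f i‖ ^ 2

/-! ### B. The identity -/

/-- IBD: integration by parts for the linear vector field `m`. -/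
def ST_IBD : Prop := ∀ (n k : ℕ) (c : Cfg n k) (p : ℝ) (m : Fin k → ℝ) (F : E k → ℝ)
  (F' : Fin k → E k → ℝ), 2 < p → p ≤ 3 → PG F → (∀ l, PG (F' l)) →
  (∀ l x, HasLineDerivAt ℝ F (F' l x) x (EuclideanSpace.single l 1)) →
  (av c p fun x => F x * (p * ∑ i, c.s i * ps p (c.z i x) * inner ℝ (dg m (c.e i)) x)) =
    (∑ l, m l) * av c p F + av c p fun x => ∑ l, m l * x l * F' l x

/-- DID: the identity, with the variance of the error term replaced by its second moment. -/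
def ST_DID : Prop := ∀ (n k : ℕ) (c : Cfg n k) (p : ℝ) (v : Fin n → ℝ) (m : Fin k → ℝ),
  2 < p → p ≤ 3 → Dg c v m →
  (∑ i, c.s i * av c p fun x => |c.z i x| ^ (p - 2) * (inner ℝ (ff c v m i) x) ^ 2) +
    qq c p m / p ^ 2 -
    (av c p fun x => (∑ i, c.s i * (om p (c.z i x) * c.z i x) * inner ℝ (ff c v m i) x) ^ 2) ≤
  (∑ i, c.s i * v i ^ 2 * av c p fun x => |c.z i x| ^ p) -
    ((av c p fun x => XX c p v x ^ 2) - (av c p (XX c p v)) ^ 2)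

/-- QID: the form `q`. -/
def ST_QID : Prop := ∀ (n k : ℕ) (c : Cfg n k) (p : ℝ) (m : Fin k → ℝ), 2 < p → p ≤ 3 →
  qq c p m = (∑ l, ∑ l', Q c p l l' * (m l - m l') ^ 2) / 2

/-! ### C. The cut lemma -/

/-- RFL: reflection. -/
def ST_RFL : Prop := ∀ (n k : ℕ) (c : Cfg n k) (p : ℝ) (S : Finset (Fin k)) (F : E k → ℝ),
  2 < p → p ≤ 3 → PG F →
  |2 * av c p F| ≤ |av c p fun x => F x + F (fl S x)| +
    av c p fun x => (|F x| + |F (fl S x)|) * |V c p (fl S x) - V c p x|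

/-- VRF: the potential and its derivative under reflection. -/
def ST_VRF : Prop := ∀ k : ℕ, ∃ K : ℝ, 1 ≤ K ∧ ∀ (n : ℕ) (c : Cfg n k) (p : ℝ)
  (S : Finset (Fin k)) (v x : E k), 2 < p → p ≤ 3 →
  |V c p (fl S x) - V c p x| ≤ K * Real.sqrt (kap c S) * (1 + ‖x‖) ^ 3 ∧
  (pr S v = v → ‖v‖ ≤ 1 →
    |dV c p v (fl S x) - dV c p v x| ≤ K * Real.sqrt (kap c S) * (1 + ‖x‖) ^ 2)

/-- TBA: two integrations by parts; `v` is the direction of the projection of `e i` -/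
def ST_TBA : Prop := ∀ (n k : ℕ) (c : Cfg n k) (p : ℝ) (S : Finset (Fin k)) (l l' : Fin k)
  (i : Fin n) (v : E k), 2 < p → p ≤ 3 → l ∈ S → l' ∉ S → pr S v = v →
  (inner ℝ (c.e i) v * av c p fun x => om p (c.z i x) * (x l * x l')) =
    (av c p fun x => Om p (c.z i x) * x l' * (dV c p v x * x l - v l)) ∧
  (inner ℝ (c.e i) v * av c p fun x => (Om p (c.z i x) - Om p (c.z i (fl S x))) * x l' *
    (dV c p v x * x l - v l)) =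
    av c p fun x => (O2 p (c.z i x) - O2 p (c.z i (fl S x))) * x l' *
      ((dV c p v x * x l - v l) * dV c p v x - (ddV c p v v x * x l + dV c p v x * v l))

/-- TBB: the bound for `T`, first case. -/
def ST_TBB : Prop := ∀ k : ℕ, ∃ K : ℝ, 1 ≤ K ∧ ∀ (n : ℕ) (c : Cfg n k) (p : ℝ)
  (S : Finset (Fin k)) (l l' : Fin k) (i : Fin n), 2 < p → p ≤ 3 → l ∈ S → l' ∉ S →
  1 / 2 ≤ ‖pr S (c.e i)‖ ^ 2 →
  |av c p fun x => om p (c.z i x) * (x l * x l')| ≤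
    K * (p - 2) * (‖pr Sᶜ (c.e i)‖ + Real.sqrt (kap c S))

/-- CUT: the cut lemma. -/
def ST_CUT : Prop := ∀ k : ℕ, ∃ K : ℝ, 1 ≤ K ∧ ∀ (n : ℕ) (c : Cfg n k) (p : ℝ)
  (S : Finset (Fin k)) (l l' : Fin k), 2 < p → p ≤ 3 → l ∈ S → l' ∉ S →
  |Q c p l l'| ≤ K * (p - 2) * kap c S

/-- GAP: a large gap. -/
def ST_GAP : Prop := ∀ (k : ℕ) (m : Fin k → ℝ) (l l' : Fin k), m l' < m l →
  ∃ S : Finset (Fin k), l ∈ S ∧ l' ∉ S ∧ ∀ a ∈ S, ∀ b, b ∉ S → (m l - m l') / k ≤ m a - m b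

/-- QB: the bound for the form `q`. -/
def ST_QB : Prop := ∀ k : ℕ, ∃ K : ℝ, 1 ≤ K ∧ ∀ (n : ℕ) (c : Cfg n k) (p : ℝ) (v : Fin n → ℝ)
  (m : Fin k → ℝ), 2 < p → p ≤ 3 →
  |qq c p m| ≤ K * (p - 2) * ∑ i, c.s i * ‖ff c v m i‖ ^ 2

/-! ### D. The inequality -/

/-- DIA: the inequality in the diagonal case. -/
def ST_DIA : Prop := ∀ k : ℕ, ∃ ε : ℝ, 0 < ε ∧ ε ≤ 1 ∧ ∀ (n : ℕ) (c : Cfg n k) (p : ℝ)
  (v : Fin n → ℝ) (m : Fin k → ℝ), 2 < p → p ≤ 2 + ε → Dg c v m →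
  (av c p fun x => XX c p v x ^ 2) - (av c p (XX c p v)) ^ 2 ≤
    ∑ i, c.s i * v i ^ 2 * av c p fun x => |c.z i x| ^ p

/-- MAI: the inequality for isotropic configurations. -/
def ST_MAI : Prop := ∀ k : ℕ, ∃ ε : ℝ, 0 < ε ∧ ε ≤ 1 ∧ ∀ (n : ℕ) (c : Cfg n k) (p : ℝ)
  (v : Fin n → ℝ), 2 < p → p ≤ 2 + ε →
  (av c p fun x => XX c p v x ^ 2) - (av c p (XX c p v)) ^ 2 ≤
    ∑ i, c.s i * v i ^ 2 * av c p fun x => |c.z i x| ^ p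

/-! ### E. The Lewis position -/

/-- LWA: the maximum of the determinant. -/
def ST_LWA : Prop := ∀ (n k : ℕ) (p : ℝ) (a : Fin n → E k), 0 < k → 1 ≤ p → Sp a →
  ∃ T : E k →ₗ[ℝ] E k, LinearMap.det T ≠ 0 ∧ ∑ i, ‖T (a i)‖ ^ p = k ∧
  ∀ T' : E k →ₗ[ℝ] E k, |LinearMap.det T'| ^ p * (k : ℝ) ^ k ≤
    |LinearMap.det T| ^ p * (∑ i, ‖T' (a i)‖ ^ p) ^ k

/-- LWB: the first order condition. -/
def ST_LWB : Prop := ∀ (n k : ℕ) (p : ℝ) (a : Fin n → E k) (T : E k →ₗ[ℝ] E k), 0 < k → 2 ≤ p →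
  LinearMap.det T ≠ 0 → ∑ i, ‖T (a i)‖ ^ p = k →
  (∀ T' : E k →ₗ[ℝ] E k, |LinearMap.det T'| ^ p * (k : ℝ) ^ k ≤
    |LinearMap.det T| ^ p * (∑ i, ‖T' (a i)‖ ^ p) ^ k) →
  ∀ u w : E k, ∑ i, ‖T (a i)‖ ^ (p - 2) * inner ℝ (T (a i)) u * inner ℝ (T (a i)) w =
    inner ℝ u w

/-- LEW: the Lewis position. -/
def ST_LEW : Prop := ∀ (n k : ℕ) (p : ℝ) (a : Fin n → E k), 0 < k → 2 < p → Sp a →
  ∃ (L : E k ≃ₗ[ℝ] E k) (c : Cfg n k), ∀ x i, |inner ℝ (a i) (L x)| ^ p = c.s i * |c.z i x| ^ p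

/-- LOC: the inequality for all spanning families. -/
def ST_LOC : Prop := ∀ k : ℕ, ∃ ε : ℝ, 0 < ε ∧ ε ≤ 1 ∧ ∀ (n : ℕ) (a : Fin n → E k) (p : ℝ)
  (v : Fin n → ℝ), 2 < p → p ≤ 2 + ε → Sp a →
  (∫ y, (∑ i, v i * |inner ℝ (a i) y| ^ p) ^ 2 * Real.exp (-∑ i, |inner ℝ (a i) y| ^ p)) *
    (∫ y, Real.exp (-∑ i, |inner ℝ (a i) y| ^ p)) -
    (∫ y, (∑ i, v i * |inner ℝ (a i) y| ^ p) * Real.exp (-∑ i, |inner ℝ (a i) y| ^ p)) ^ 2 ≤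
  (∫ y, (∑ i, v i ^ 2 * |inner ℝ (a i) y| ^ p) * Real.exp (-∑ i, |inner ℝ (a i) y| ^ p)) *
    ∫ y, Real.exp (-∑ i, |inner ℝ (a i) y| ^ p)

/-! ### F. Conclusion -/

/-- SDE: derivatives under the integral sign. -/
def ST_SDE : Prop := ∀ (n k : ℕ) (a : Fin n → E k) (p : ℝ) (τ v : Fin n → ℝ), 2 ≤ p → Sp a →
  (∀ t, Integrable (wt a p τ v t)) ∧
  (∀ t, Integrable (fun y => Xt a p τ v 1 t y ^ 2 * wt a p τ v t y)) ∧
  (∀ t, Integrable (fun y => Xt a p τ v 2 t y * wt a p τ v t y)) ∧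
  (∀ t, HasDerivAt (fun t => ∫ y, wt a p τ v t y) (-∫ y, Xt a p τ v 1 t y * wt a p τ v t y) t) ∧
  ∀ t, HasDerivAt (fun t => ∫ y, Xt a p τ v 1 t y * wt a p τ v t y)
    (∫ y, (Xt a p τ v 2 t y - Xt a p τ v 1 t y ^ 2) * wt a p τ v t y) t

/-- SEC: log-concavity of the integral. -/
def ST_SEC : Prop := ∀ k : ℕ, ∃ ε : ℝ, 0 < ε ∧ ε ≤ 1 ∧ ∀ (n : ℕ) (a : Fin n → E k) (p : ℝ)
  (τ v : Fin n → ℝ), 2 < p → p ≤ 2 + ε → Sp a →
  ConcaveOn ℝ Set.univ fun t => Real.log (∫ y, wt a p τ v t y)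

open Pool.Agent.Helper86.LP in
/-- FIN: the theorem. -/
def ST_FIN : Prop := ∀ k : ℕ, ∃ ε : ℝ, 0 < ε ∧ ∀ (p : ℝ), 2 < p → p ≤ 2 + ε → ∀ (n : ℕ)
  (H : Submodule ℝ (EuclideanSpace ℝ (Fin n))), Module.finrank ℝ H = k →
  IsLogConcave (sectionVolume p H)

end Pool.Agent.Helper67.BT
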